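import Pool.Agent.W901.PX.LvB

/-!
# Closure of the levels of the polynomial hierarchy under polynomially bounded conjunctions
-/

set_option autoImplicit false

namespace Pool.Agent.W901.PX

open Pool.Agent.NPC Pool.Agent.H251R5.PQ Pool.Agent.W901.AT Pool.Agent.H579R2.Spt
open Pool.Agent.W901.NU
open Pool.Agent.W903.GP (InPH SigmaP sigma_props sigma_ex sigma_succ sigma_mono u1 u1_pair poly_u1
  pid inP_iff)

section

variable {k : ℕ} {α β γ : Type} [TEnc α] [TEnc β] [TEnc γ]

theorem sExMem [TDec α] [TDec β] {l : α → List β} (hl : Poly l) {P : α × β → Prop}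
    (h : CPr (SigmaP k) P) : CPr (SigmaP k) (fun a => ∃ b ∈ l a, P (a, b)) := by
  cases k with
  | zero =>
    obtain ⟨L, hL, h2⟩ := h
    obtain ⟨d, hd, hdL⟩ := inP_iff.1 (show InP L from hL)
    refine (sPoly (NPC.Poly.any (p := fun a b => d (bits ((a, b) : α × β))) hl
      (hd.comp bits_poly))).congr fun a => ?_
    rw [List.any_eq_true]
    refine exists_congr fun b => and_congr_right fun _ => ?_
    rw [h2, hdL]
  | succ k =>
    obtain ⟨r, hr⟩ := hl.sz_le
    have h1 : CPr (SigmaP (k + 1)) (fun q : α × List Bool =>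
        ∃ b : α × β, (l q.1)[q.2.length]?.map (fun p => (q.1, p)) = some b ∧ P b) := by
      refine sPart (P := fun b : α × β => P b)
        (f := fun q : α × List Bool => (l q.1)[q.2.length]?.map (fun p => (q.1, p))) h ?_
      refine NPC.Poly.optMap (o := fun q : α × List Bool => (l q.1)[q.2.length]?)
        (f := fun (q : α × List Bool) (p : β) => (q.1, p)) ?_ ?_
      · exact NPC.Poly.getElem? (hl.comp (NPC.Poly.fst NPC.Poly.id))
          (NPC.Poly.length (NPC.Poly.snd NPC.Poly.id))
      · exact NPC.Poly.pair (NPC.Poly.fst (NPC.Poly.fst NPC.Poly.id))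
          (NPC.Poly.snd NPC.Poly.id)
    refine (sExW h1 r).congr fun a => ?_
    constructor
    · rintro ⟨w, _, b, hb, hne⟩
      obtain ⟨p, hp, hpb⟩ := Option.map_eq_some_iff.1 hb
      refine ⟨p, List.mem_of_getElem? hp, ?_⟩
      rw [← hpb] at hne
      exact hne
    · rintro ⟨b, hb, hne⟩
      obtain ⟨i, hi, rfl⟩ := List.mem_iff_getElem.1 hb
      refine ⟨List.replicate i false, ?_, (a, (l a)[i]), ?_, hne⟩
      · rw [List.length_replicate]
        have := length_lt_sz (l a)
        have := hr a
        omega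
      · rw [List.length_replicate, List.getElem?_eq_getElem hi, Option.map_some]

/-- **Polynomially bounded conjunctions.** -/
theorem sAllMem [TDec α] [TDec β] {l : α → List β} (hl : Poly l) {P : α × β → Prop}
    (h : CPr (SigmaP (k + 1)) P) : CPr (SigmaP (k + 1)) (fun a => ∀ b ∈ l a, P (a, b)) := by
  obtain ⟨r, hr⟩ := hl.sz_le
  obtain ⟨L, ⟨M, p, hM, hLM⟩, h2⟩ := h
  -- one conjunct with its witness
  have e1 : Poly (fun q : (α × List (List Bool)) × (β × List Bool) =>
      (bits ((q.1.1, q.2.1) : α × β) : List Bool)) :=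
    bits_poly.comp (NPC.Poly.pair (NPC.Poly.fst (NPC.Poly.fst NPC.Poly.id))
      (NPC.Poly.fst (NPC.Poly.snd NPC.Poly.id)))
  have e2 : Poly (fun q : (α × List (List Bool)) × (β × List Bool) => q.2.2) :=
    NPC.Poly.snd (NPC.Poly.snd NPC.Poly.id)
  have hQ : CPr (SigmaP k) (fun q : (α × List (List Bool)) × (β × List Bool) =>
      (!decide (q.2.2.length ≤ p.eval (bits ((q.1.1, q.2.1) : α × β)).length)) = true ∨
        pairBits (bits ((q.1.1, q.2.1) : α × β)) q.2.2 ∈ M) :=
    sOr (sPoly (NPC.Poly.not (NPC.Poly.decide_le (NPC.Poly.length e2)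
      ((UPoly.length e1).eval p).toPoly)))
      (sComp (P := fun x : List Bool => x ∈ M) (sOf_raw hM) (H622R2.poly_pairBits e1 e2))
  have hN : CPr (SigmaP k) (fun z : α × List (List Bool) =>
      (!decide (z.2.length = (l z.1).length)) = true ∨ ∃ y ∈ (l z.1).zip z.2,
        ((!decide (y.2.length ≤ p.eval (bits ((z.1, y.1) : α × β)).length)) = true ∨
          pairBits (bits ((z.1, y.1) : α × β)) y.2 ∈ M)) := by
    refine sOr (sPoly (NPC.Poly.not (NPC.Poly.decide_eq (NPC.Poly.length
      (NPC.Poly.snd NPC.Poly.id)) (NPC.Poly.length (hl.comp (NPC.Poly.fst NPC.Poly.id)))))) ?_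
    exact sExMem (l := fun z : α × List (List Bool) => (l z.1).zip z.2)
      (NPC.Poly.zip (hl.comp (NPC.Poly.fst NPC.Poly.id)) (NPC.Poly.snd NPC.Poly.id)) hQ
  refine (sEx (sNot hN) (r * (Polynomial.C 4 * p.comp (Polynomial.X + r + 1) + 2) + 1)).congr
    fun a => ?_
  simp only
  constructor
  · rintro ⟨W, _, hW⟩ b hb
    rw [not_or] at hW
    obtain ⟨hW1, hW2⟩ := hW
    have hlen : W.length = (l a).length := by
      simpa using hW1
    obtain ⟨i, hi, rfl⟩ := List.mem_iff_getElem.1 hb
    have hiW : i < W.length := by omega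
    have hmem : ((l a)[i], W[i]) ∈ (l a).zip W := by
      rw [List.mem_iff_getElem]
      exact ⟨i, by rw [List.length_zip]; omega, List.getElem_zip⟩
    have h3 : ¬ ((!decide ((W[i]).length ≤ p.eval (bits ((a, (l a)[i]) : α × β)).length)) = true ∨
        pairBits (bits ((a, (l a)[i]) : α × β)) W[i] ∈ M) := fun h4 =>
      hW2 ⟨_, hmem, h4⟩
    rw [not_or] at h3
    rw [h2, hLM]
    exact ⟨W[i], by simpa using h3.1, h3.2⟩
  · intro h3
    have h4 : ∀ b ∈ l a, ∃ w : List Bool, w.length ≤ p.eval (bits ((a, b) : α × β)).length ∧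
        pairBits (bits ((a, b) : α × β)) w ∉ M := fun b hb => (hLM _).1 ((h2 _).1 (h3 b hb))
    have h5 : ∀ b : β, ∃ w : List Bool, b ∈ l a →
        (w.length ≤ p.eval (bits ((a, b) : α × β)).length ∧
          pairBits (bits ((a, b) : α × β)) w ∉ M) := fun b => by
      by_cases hb : b ∈ l a
      · obtain ⟨w, hw⟩ := h4 b hb
        exact ⟨w, fun _ => hw⟩
      · exact ⟨[], fun h => absurd h hb⟩
    choose w hw using h5
    refine ⟨(l a).map w, ?_, ?_⟩
    · have h6 := sz_le_length_mul ((l a).map w) (4 * p.eval (sz a + r.eval (sz a) + 1) + 1)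
        (fun c hc => by
          obtain ⟨b, hb, rfl⟩ := List.mem_map.1 hc
          have h7 := (hw b hb).1
          have h8 := sz_listBool_le (w b)
          have h9 : p.eval (bits ((a, b) : α × β)).length ≤
              p.eval (sz a + r.eval (sz a) + 1) := by
            refine eval_mono p ?_
            rw [bits_length, sz_pair]
            have := sz_le_of_mem hb
            have := hr a
            omega
          omega)
      rw [List.length_map] at h6
      simp only [Polynomial.eval_add, Polynomial.eval_mul, Polynomial.eval_one,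
        Polynomial.eval_comp, Polynomial.eval_X, Polynomial.eval_C, Polynomial.eval_ofNat]
      refine h6.trans (Nat.succ_le_succ (Nat.mul_le_mul_right _ ?_))
      have := length_lt_sz (l a)
      have := hr a
      omega
    · rw [not_or]
      refine ⟨by simp, ?_⟩
      rintro ⟨y, hy, h6⟩
      have e : (l a).zip ((l a).map w) = (l a).map (fun b => (b, w b)) := by
        have := List.zip_map' (f := fun b : β => b) (g := w) (l := l a)
        simpa using this
      rw [e, List.mem_map] at hy
      obtain ⟨b, hb, rfl⟩ := hy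
      have h7 := hw b hb
      rcases h6 with h6 | h6
      · simp [h7.1] at h6
      · exact h7.2 h6

/-- mapping a function of the level over a list -/
theorem fMap1 [TDec α] [TDec β] [TDec γ] {l : α → List β} (hl : Poly l)
    {F : α × β → γ} (hF : CFn (SigmaP (k + 1)) F) :
    CFn (SigmaP (k + 1)) (fun a => (l a).map (fun b => F (a, b))) := by
  refine ⟨(fMap hl hF).1, ?_⟩
  have h1 : CPr (SigmaP (k + 1)) (fun s : (α × List γ) × (β × γ) => F (s.1.1, s.2.1) = s.2.2) :=
    sComp hF.2 (f := fun s : (α × List γ) × (β × γ) => ((s.1.1, s.2.1), s.2.2))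
      (NPC.Poly.pair (NPC.Poly.pair (NPC.Poly.fst (NPC.Poly.fst NPC.Poly.id))
        (NPC.Poly.fst (NPC.Poly.snd NPC.Poly.id))) (NPC.Poly.snd (NPC.Poly.snd NPC.Poly.id)))
  have h2 := sAllMem (l := fun q : α × List γ => (l q.1).zip q.2)
    (NPC.Poly.zip (hl.comp (NPC.Poly.fst NPC.Poly.id)) (NPC.Poly.snd NPC.Poly.id)) h1
  have h3 : CPr (SigmaP (k + 1)) (fun q : α × List γ =>
      decide ((l q.1).length = q.2.length) = true) :=
    sPoly (NPC.Poly.decide_eq (NPC.Poly.length (hl.comp (NPC.Poly.fst NPC.Poly.id)))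
      (NPC.Poly.length (NPC.Poly.snd NPC.Poly.id)))
  refine (sAnd h3 h2).congr fun q => ?_
  obtain ⟨a, L'⟩ := q
  simp only [decide_eq_true_eq]
  constructor
  · rintro ⟨h4, h5⟩
    apply List.ext_getElem
    · rw [List.length_map, h4]
    · intro i hi1 hi2
      rw [List.length_map] at hi1
      rw [List.getElem_map]
      exact h5 ((l a)[i], L'[i]) (by
        rw [List.mem_iff_getElem]
        exact ⟨i, by rw [List.length_zip]; omega, List.getElem_zip⟩)
  · rintro rfl
    refine ⟨by rw [List.length_map], fun y hy => ?_⟩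
    have e : (l a).zip ((l a).map (fun b => F (a, b))) =
        (l a).map (fun b => (b, F (a, b))) := by
      have := List.zip_map' (f := fun b : β => b) (g := fun b => F (a, b)) (l := l a)
      simpa using this
    rw [e, List.mem_map] at hy
    obtain ⟨b, _, rfl⟩ := hy
    rfl

/-- The decision is computable in the level. -/
theorem fDcd1 [TDec α]
    {E : List (List Bool) → List (List (Option Bool))} (hE : CFn (SigmaP (k + 1)) E)
    {G : α × List (List Bool) → List (List Bool)} (hG : Poly G) {m : α → ℕ} (hm : UPoly m)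
    {adv : α → List Item} (hadv : Poly adv) {y : α → List Bool} (hy : Poly y) :
    CFn (SigmaP (k + 1)) (fun a => NU.dcd (fun z => E (G (a, z))) (m a) (adv a) (y a)) := by
  have e1 : Poly (fun q : α × Item => q.1) := NPC.Poly.fst NPC.Poly.id
  have e2 : Poly (fun q : α × Item => q.2.1) := NPC.Poly.fst (NPC.Poly.snd NPC.Poly.id)
  have e3 : Poly (fun q : α × Item => q.2.2) := NPC.Poly.snd (NPC.Poly.snd NPC.Poly.id)
  have e4 : Poly (fun q : α × Item => q.2.1.map Prod.fst) :=
    NPC.Poly.map (F := fun _ (p : List Bool × Bool) => p.1) e2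
      (NPC.Poly.fst (NPC.Poly.snd NPC.Poly.id))
  have e6 : Poly (fun q : α × Item => q.2.1.map Prod.fst ++ y q.1 :: q.2.2) :=
    NPC.Poly.append e4 (NPC.Poly.cons (hy.comp e1) e3)
  have h1 : CFn (SigmaP (k + 1))
      (fun q : α × Item => E (G (q.1, q.2.1.map Prod.fst ++ y q.1 :: q.2.2))) :=
    fCompPoly hE (hG.comp (NPC.Poly.pair e1 e6))
  have h2 : CFn (SigmaP (k + 1))
      (fun a => (adv a).map (fun q => E (G (a, q.1.map Prod.fst ++ y a :: q.2)))) :=
    fMap1 hadv h1
  have h3 : CFn (SigmaP (k + 1))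
      (fun a => (a, (adv a).map (fun q => E (G (a, q.1.map Prod.fst ++ y a :: q.2))))) :=
    fPair (fPoly NPC.Poly.id) h2
  -- the polynomial-time part
  have h4 : Poly (fun r : α × List (List (List (Option Bool))) =>
      decide (2 * m r.1 * (adv r.1).length < (((adv r.1).zip r.2).map (fun t : Item ×
        List (List (Option Bool)) => opin (m r.1) (clean (m r.1) t.2) (t.1.1.map Prod.snd))).sum)) := by
    have f1 : Poly (fun r : α × List (List (List (Option Bool))) => r.1) := NPC.Poly.fst NPC.Poly.id
    refine NPC.Poly.decide_lt (NPC.Poly.mul (NPC.Poly.mul (NPC.Poly.const 2) (hm.toPoly.comp f1))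
      (NPC.Poly.length (hadv.comp f1))) (NPC.Poly.sum (NPC.Poly.map
        (l := fun r : α × List (List (List (Option Bool))) => (adv r.1).zip r.2)
        (F := fun r (t : Item × List (List (Option Bool))) => opin (m r.1) (clean (m r.1) t.2)
          (t.1.1.map Prod.snd)) (NPC.Poly.zip (hadv.comp f1) (NPC.Poly.snd NPC.Poly.id)) ?_))
    have g1 : Poly (fun s : (α × List (List (List (Option Bool)))) × (Item ×
        List (List (Option Bool))) => s.1.1) := NPC.Poly.fst (NPC.Poly.fst NPC.Poly.id)
    have g2 : Poly (fun s : (α × List (List (List (Option Bool)))) × (Item ×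
        List (List (Option Bool))) => s.2.2) := NPC.Poly.snd (NPC.Poly.snd NPC.Poly.id)
    have g3 : Poly (fun s : (α × List (List (List (Option Bool)))) × (Item ×
        List (List (Option Bool))) => s.2.1.1) :=
      NPC.Poly.fst (NPC.Poly.fst (NPC.Poly.snd NPC.Poly.id))
    have g4 : Poly (fun s : (α × List (List (List (Option Bool)))) × (Item ×
        List (List (Option Bool))) => s.2.1.1.map Prod.snd) :=
      NPC.Poly.map (F := fun _ (p : List Bool × Bool) => p.2) g3
        (NPC.Poly.snd (NPC.Poly.snd NPC.Poly.id))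
    exact opin_poly (hm.comp g1) (clean_poly (hm.toPoly.comp g1) g2) g4
  refine (fComp (fPoly h4) h3).congr fun a => ?_
  unfold NU.dcd pred
  congr 3
  simp only
  generalize adv a = l
  induction l with
  | nil => rfl
  | cons q l ih =>
    rw [List.map_cons, List.zip_cons_cons, List.map_cons, List.map_cons, ih]

end

/-- **Advice from predictions in a level, along a reduction.** -/
theorem advAt_of_reduces {k : ℕ} {f : ℕ → ℝ} {ε : ℝ}
    (hf : Filter.Tendsto (fun m : ℕ => f m / Real.sqrt (Real.log m)) Filter.atTop Filter.atTop)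
    (hε : 0 < ε) {A : Set (List Bool)} (h : PredIn (SigmaP (k + 1)) f ε A)
    {L : Set (List Bool)} {r : List Bool → List Bool} (hr : Poly r) (hL : ∀ x, x ∈ L ↔ r x ∈ A) :
    AdvAt (k + 1) L := by
  obtain ⟨g, b, hg, hX⟩ := h
  obtain ⟨c', hc⟩ := exists_nat_ge (1 / ε)
  have hc1 : 1 ≤ (c' : ℝ) * ε := by
    rwa [div_le_iff₀ hε] at hc
  -- from some length on the advantage is positive
  obtain ⟨M0, hM0⟩ := big_of_tendsto hf 0
  set f' : ℕ → ℝ := fun m => if M0 ≤ m then f m else 0 with hf'
  set E : List (List Bool) → List (List (Option Bool)) := fun qs =>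
    (enuStep^[b * (Nat.log 2 (bits qs).length + 1)] [[]]).map
      (fun t => g (pairBits (bits qs) t)) with hEdef
  have hE : CFn (SigmaP (k + 1)) E := by
    refine fMap1 (l := fun qs : List (List Bool) =>
      enuStep^[b * (Nat.log 2 (bits qs).length + 1)] [[]])
      (F := fun p : List (List Bool) × List Bool => g (pairBits (bits p.1) p.2))
      (enu_poly_all b) ?_
    exact fCompPoly (fToCFn hg) (H622R2.poly_pairBits
      (enu_poly_bits.comp (Poly.fst Poly.id)) (Poly.snd Poly.id))
  have hE' := hE
  obtain ⟨⟨pE, hpE⟩, _⟩ := hE'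
  obtain ⟨Pm, Pa, _, hadv⟩ := adv_of_szEnum_s (A := A) (c := c') (f := f') (fun e => by
      obtain ⟨M, hM⟩ := big_of_tendsto hf e
      refine ⟨max M M0, fun m hm => ?_⟩
      have h1 : f' m = f m := if_pos (le_trans (le_max_right _ _) hm)
      rw [h1]
      exact hM m (le_trans (le_max_left _ _) hm)) hpE (fun qs hqs hlen => by
      obtain ⟨t, ht, hb⟩ := hX qs hqs (fun y hy =>
        length_cond hε hc1 (length_pos hqs) (hlen y hy))
      refine ⟨_, List.mem_map.2 ⟨t, enu_mem _ _ ht, rfl⟩, ?_⟩
      by_cases hm : M0 ≤ qs.length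
      · have h1 : f' qs.length = f qs.length := if_pos hm
        rw [h1]
        exact sgood_of_beatsBy (hM0 _ hm).1 hb
      · have h1 : f' qs.length = 0 := if_neg hm
        rw [h1]
        refine ⟨by rw [hb.1]; simp [answers], hb.2.1, ?_⟩
        simp only [ne_eq, OfNat.ofNat_ne_zero, not_false_eq_true, zero_pow, zero_mul]
        positivity)
      (κ := Bool) (F := fun z : Bool × List Bool => r z.2) (hr.comp (NPC.Poly.snd NPC.Poly.id))
  refine ⟨fun z => dcd (fun y => E (y.map (fun u => r u))) (Pm.eval (z.1.1.length + 3)) z.1.2 z.2,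
    ?_, Pa.comp (Polynomial.X + 3), fun n => ?_⟩
  · have e1 : Poly (fun z : (List Bool × List Item) × List Bool => z.1.1) :=
      NPC.Poly.fst (NPC.Poly.fst NPC.Poly.id)
    have e2 : UPoly (fun z : (List Bool × List Item) × List Bool =>
        Pm.eval (z.1.1.length + 3)) := ((UPoly.length e1).add (UPoly.const 3)).eval Pm
    have e3 : Poly (fun q : ((List Bool × List Item) × List Bool) × List (List Bool) =>
        q.2.map (fun u => r u)) :=
      NPC.Poly.map (l := fun q : ((List Bool × List Item) × List Bool) ×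
        List (List Bool) => q.2) (F := fun _ u => r u) (NPC.Poly.snd NPC.Poly.id)
        (hr.comp (NPC.Poly.snd NPC.Poly.id))
    exact fDcd1 hE (G := fun q : ((List Bool × List Item) × List Bool) × List (List Bool) =>
        q.2.map (fun u => r u)) e3 e2 (NPC.Poly.snd (NPC.Poly.fst NPC.Poly.id))
      (NPC.Poly.snd NPC.Poly.id)
  · obtain ⟨adv, h1, h2⟩ := hadv (n + 3) true (by have := sz_bool_le true; omega)
    refine ⟨adv, by simpa [Polynomial.eval_comp] using h1, fun u hu => ?_⟩
    simp only [un_length]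
    rw [h2 u (by omega), hL]

end Pool.Agent.W901.PX
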