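import Pool.Agent.W901.NU.ShB

/-!
# A calculus for the levels of the polynomial hierarchy
-/

set_option autoImplicit false

namespace Pool.Agent.W901.PX

open Pool.Agent.NPC Pool.Agent.H251R5.PQ Pool.Agent.W901.AT Pool.Agent.H579R2.Spt
open Pool.Agent.W901.NU
open Pool.Agent.W903.GP (InPH SigmaP sigma_props sigma_ex sigma_succ sigma_mono u1 u1_pair poly_u1
  pid)

theorem sigma_compl {k : ℕ} {L : Set (List Bool)} (h : SigmaP k L) : SigmaP (k + 1) Lᶜ := by
  refine ⟨_, 0, (sigma_props k).1 _ u1 (poly_u1 pid) h, fun x => ?_⟩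
  constructor
  · intro hx
    refine ⟨[], by simp, ?_⟩
    rw [Set.mem_preimage, u1_pair]
    exact hx
  · rintro ⟨w, _, hn⟩
    rw [Set.mem_preimage, u1_pair] at hn
    exact hn

section

variable {k : ℕ} {α β γ : Type} [TEnc α] [TEnc β] [TEnc γ]

theorem sMono {k l : ℕ} (h : k ≤ l) {P : α → Prop} (hP : CPr (SigmaP k) P) : CPr (SigmaP l) P := by
  obtain ⟨L, h1, h2⟩ := hP
  exact ⟨L, sigma_mono h h1, h2⟩

theorem sPoly [TDec α] {d : α → Bool} (hd : Poly d) : CPr (SigmaP k) (fun a => d a = true) :=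
  ⟨_, sigma_mono (Nat.zero_le k) (show SigmaP 0 _ from
    inPP_of (P := fun a => d a = true) hd fun _ => Iff.rfl),
    fun a => (bits_mem_lang (P := fun a => d a = true)).symm⟩

theorem sAnd {P Q : α → Prop} (h : CPr (SigmaP k) P) (h' : CPr (SigmaP k) Q) :
    CPr (SigmaP k) (fun a => P a ∧ Q a) := by
  obtain ⟨L, h1, h2⟩ := h
  obtain ⟨L', h1', h2'⟩ := h'
  exact ⟨_, (sigma_props k).2.1 _ _ h1 h1', fun a => and_congr (h2 a) (h2' a)⟩

theorem sOr {P Q : α → Prop} (h : CPr (SigmaP k) P) (h' : CPr (SigmaP k) Q) :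
    CPr (SigmaP k) (fun a => P a ∨ Q a) := by
  obtain ⟨L, h1, h2⟩ := h
  obtain ⟨L', h1', h2'⟩ := h'
  exact ⟨_, (sigma_props k).2.2 _ _ h1 h1', fun a => or_congr (h2 a) (h2' a)⟩

theorem sNot {P : α → Prop} (h : CPr (SigmaP k) P) : CPr (SigmaP (k + 1)) (fun a => ¬ P a) := by
  obtain ⟨L, h1, h2⟩ := h
  exact ⟨_, sigma_compl h1, fun a => not_congr (h2 a)⟩

/-- composition with an optional function -/
theorem sPart [TDec α] {P : β → Prop} (h : CPr (SigmaP k) P) {f : α → Option β}
    (hf : Poly f) : CPr (SigmaP k) (fun a => ∃ b, f a = some b ∧ P b) := by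
  obtain ⟨L, h1, h2⟩ := h
  have h3 : Poly (fun x : List Bool => obits ((unbits α x).bind f)) := by
    refine obits_poly.comp ?_
    exact NPC.Poly.optBind (f := fun _ a => f a) poly_unbits (hf.comp (NPC.Poly.snd NPC.Poly.id))
  have h4 : CPr (SigmaP k) (fun a => (f a).isSome = true) := by
    refine sPoly ?_
    refine (NPC.Poly.optElim (o := f) (g := fun _ => false) (h := fun _ _ => true) hf
      (NPC.Poly.const _) (NPC.Poly.const _)).congr fun a => ?_
    cases f a <;> rfl
  have h5 : CPr (SigmaP k) (fun a : α => obits (f a) ∈ L) := by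
    refine ⟨_, (sigma_props k).1 _ _ h3 h1, fun a => ?_⟩
    rw [Set.mem_preimage, unbits_bits]
    rfl
  refine (sAnd h4 h5).congr fun a => ?_
  cases h6 : f a with
  | none => simp
  | some b => simpa [obits] using (h2 b).symm

theorem sComp [TDec α] {P : β → Prop} (h : CPr (SigmaP k) P) {f : α → β} (hf : Poly f) :
    CPr (SigmaP k) (fun a => P (f a)) :=
  (sPart h (f := fun a => some (f a)) (NPC.Poly.some hf)).congr fun a => by simp

theorem sTo_raw {P : List Bool → Prop} (h : CPr (SigmaP k) P) : SigmaP k {x | P x} := by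
  obtain ⟨L, h1, h2⟩ := h
  have h3 := (sigma_props k).1 _ (fun x : List Bool => bits x) bits_poly h1
  have e : {x | P x} = (fun x : List Bool => (bits x : List Bool)) ⁻¹' L := Set.ext fun x => h2 x
  rw [e]
  exact h3

theorem sOf_raw {L : Set (List Bool)} (h : SigmaP k L) :
    CPr (SigmaP k) (fun x : List Bool => x ∈ L) := by
  have h3 : Poly (fun x : List Bool => (unbits (List Bool) x).getD []) :=
    NPC.Poly.optGetD (g := fun _ => []) poly_unbits (NPC.Poly.const _)
  refine ⟨_, (sigma_props k).1 _ _ h3 h, fun a => ?_⟩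
  rw [Set.mem_preimage, unbits_bits]
  rfl

theorem sExW [TDec α] {P : α × List Bool → Prop} (h : CPr (SigmaP (k + 1)) P)
    (p : Polynomial ℕ) :
    CPr (SigmaP (k + 1)) (fun a => ∃ w : List Bool, w.length ≤ p.eval (sz a) ∧ P (a, w)) := by
  obtain ⟨L, h1, h2⟩ := h
  have h3 : Poly (fun y : List Bool => obits ((unbits α (unpair y).1).map
      (fun a => (a, (unpair y).2)))) := by
    refine obits_poly.comp ?_
    exact NPC.Poly.optMap (o := fun y : List Bool => unbits α (unpair y).1)
      (f := fun y a => (a, (unpair y).2)) (poly_unbits.comp (NPC.Poly.fst poly_unpair))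
      (NPC.Poly.pair (NPC.Poly.snd NPC.Poly.id)
        (NPC.Poly.snd (poly_unpair.comp (NPC.Poly.fst NPC.Poly.id))))
  refine ⟨_, sigma_ex k p ((sigma_props (k + 1)).1 _ _ h3 h1), fun a => ?_⟩
  constructor
  · rintro ⟨w, hw, hP⟩
    refine ⟨w, by rw [bits_length]; exact hw, ?_⟩
    rw [Set.mem_preimage, unpair_pairBits, unbits_bits]
    exact (h2 _).1 hP
  · rintro ⟨w, hw, hP⟩
    refine ⟨w, by rw [bits_length] at hw; exact hw, ?_⟩
    rw [Set.mem_preimage, unpair_pairBits, unbits_bits] at hP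
    exact (h2 _).2 hP

theorem sEx [TDec α] [TDec β] {P : α × β → Prop} (h : CPr (SigmaP (k + 1)) P)
    (p : Polynomial ℕ) :
    CPr (SigmaP (k + 1)) (fun a => ∃ b : β, sz b ≤ p.eval (sz a) ∧ P (a, b)) := by
  have h1 := sPart h (f := fun q : α × List Bool => (unbits β q.2).map (fun b => (q.1, b)))
    (NPC.Poly.optMap (f := fun (q : α × List Bool) b => (q.1, b))
      (poly_unbits.comp (NPC.Poly.snd NPC.Poly.id))
      (NPC.Poly.pair (NPC.Poly.fst (NPC.Poly.fst NPC.Poly.id)) (NPC.Poly.snd NPC.Poly.id)))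
  refine (sExW h1 p).congr fun a => ?_
  constructor
  · rintro ⟨w, hw, q, hq, hP⟩
    simp only at hq
    cases hb : unbits β w with
    | none => rw [hb] at hq; simp at hq
    | some b =>
      rw [hb, Option.map_some, Option.some.injEq] at hq
      subst hq
      refine ⟨b, ?_, hP⟩
      rw [← bits_length, bits_of_unbits hb]
      exact hw
  · rintro ⟨b, hb, hP⟩
    refine ⟨bits b, by rw [bits_length]; exact hb, (a, b), ?_, hP⟩
    simp only [unbits_bits, Option.map_some]

theorem sAllW [TDec α] {P : α × List Bool → Prop} (h : CPr (SigmaP k) P) (p : Polynomial ℕ) :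
    CPr (SigmaP (k + 2)) (fun a => ∀ w : List Bool, w.length ≤ p.eval (sz a) → P (a, w)) :=
  (sNot (sExW (sNot h) p)).congr fun a => by
    simp only [not_exists, not_and, not_not]

theorem fMono {k l : ℕ} (h : k ≤ l) {f : α → β} (hf : CFn (SigmaP k) f) : CFn (SigmaP l) f :=
  ⟨hf.1, sMono h hf.2⟩

theorem fPoly [TDec α] [TDec β] {f : α → β} (hf : Poly f) : CFn (SigmaP k) f := by
  refine ⟨hf.sz_le, ?_⟩
  have h1 : Poly (fun q : α × β => decide (bits (f q.1) = bits q.2)) :=
    NPC.Poly.decide_eq (bits_poly.comp (hf.comp (NPC.Poly.fst NPC.Poly.id)))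
      (bits_poly.comp (NPC.Poly.snd NPC.Poly.id))
  refine (sPoly h1).congr fun q => ?_
  rw [decide_eq_true_eq]
  exact ⟨fun h => bits_injective h, fun h => by rw [h]⟩

/-- substituting the value of a function -/
theorem sSubst [TDec α] [TDec β] {f : α → β} (hf : CFn (SigmaP (k + 1)) f) {P : α × β → Prop}
    (hP : CPr (SigmaP (k + 1)) P) : CPr (SigmaP (k + 1)) (fun a => P (a, f a)) := by
  obtain ⟨⟨ρ, hρ⟩, h⟩ := hf
  refine (sEx (sAnd h hP) ρ).congr fun a => ?_
  constructor
  · rintro ⟨b, _, hb, h1⟩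
    simp only at hb
    rw [hb]
    exact h1
  · intro h1
    exact ⟨f a, hρ a, rfl, h1⟩

theorem fCompPoly [TDec α] [TDec γ] {g : β → γ} (hg : CFn (SigmaP k) g) {f : α → β}
    (hf : Poly f) : CFn (SigmaP k) (fun a => g (f a)) := by
  obtain ⟨⟨ρ, hρ⟩, h⟩ := hg
  obtain ⟨r, hr⟩ := hf.sz_le
  refine ⟨⟨ρ.comp r, fun a => ?_⟩, ?_⟩
  · rw [Polynomial.eval_comp]
    exact (hρ _).trans (eval_mono ρ (hr a))
  · exact sComp h (f := fun q : α × γ => (f q.1, q.2))
      (NPC.Poly.pair (hf.comp (NPC.Poly.fst NPC.Poly.id)) (NPC.Poly.snd NPC.Poly.id))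

theorem fComp [TDec α] [TDec β] [TDec γ] {g : β → γ} (hg : CFn (SigmaP (k + 1)) g) {f : α → β}
    (hf : CFn (SigmaP (k + 1)) f) : CFn (SigmaP (k + 1)) (fun a => g (f a)) := by
  refine ⟨?_, ?_⟩
  · obtain ⟨⟨ρ, hρ⟩, _⟩ := hg
    obtain ⟨⟨r, hr⟩, _⟩ := hf
    refine ⟨ρ.comp r, fun a => ?_⟩
    rw [Polynomial.eval_comp]
    exact (hρ _).trans (eval_mono ρ (hr a))
  · have h1 := fCompPoly hf (f := fun q : α × γ => q.1) (NPC.Poly.fst NPC.Poly.id)
    have h2 : CPr (SigmaP (k + 1)) (fun q : (α × γ) × β => g q.2 = q.1.2) :=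
      sComp hg.2 (f := fun q : (α × γ) × β => (q.2, q.1.2))
        (NPC.Poly.pair (NPC.Poly.snd NPC.Poly.id) (NPC.Poly.snd (NPC.Poly.fst NPC.Poly.id)))
    exact sSubst h1 h2

theorem fPair [TDec α] [TDec β] [TDec γ] {f : α → β} {g : α → γ} (hf : CFn (SigmaP k) f)
    (hg : CFn (SigmaP k) g) : CFn (SigmaP k) (fun a => (f a, g a)) := by
  obtain ⟨⟨ρ, hρ⟩, h⟩ := hf
  obtain ⟨⟨ρ', hρ'⟩, h'⟩ := hg
  refine ⟨⟨ρ + ρ' + 1, fun a => ?_⟩, ?_⟩
  · rw [sz_pair]
    have h1 := hρ a
    have h2 := hρ' a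
    simp only [Polynomial.eval_add, Polynomial.eval_one]
    omega
  · have h1 := sComp h (f := fun q : α × (β × γ) => (q.1, q.2.1))
      (NPC.Poly.pair (NPC.Poly.fst NPC.Poly.id) (NPC.Poly.fst (NPC.Poly.snd NPC.Poly.id)))
    have h2 := sComp h' (f := fun q : α × (β × γ) => (q.1, q.2.2))
      (NPC.Poly.pair (NPC.Poly.fst NPC.Poly.id) (NPC.Poly.snd (NPC.Poly.snd NPC.Poly.id)))
    refine (sAnd h1 h2).congr fun q => ?_
    obtain ⟨a, b, c⟩ := q
    simp

theorem fIsTrue [TDec α] {f : α → Bool} (hf : CFn (SigmaP (k + 1)) f) :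
    CPr (SigmaP (k + 1)) (fun a => f a = true) :=
  sSubst hf (P := fun q => q.2 = true) (sPoly (NPC.Poly.snd NPC.Poly.id))

theorem fIsFalse [TDec α] {f : α → Bool} (hf : CFn (SigmaP (k + 1)) f) :
    CPr (SigmaP (k + 1)) (fun a => f a = false) :=
  (sSubst hf (P := fun q => (!q.2) = true)
    (sPoly (NPC.Poly.not (NPC.Poly.snd NPC.Poly.id)))).congr fun a => by simp

/-- mapping a function of the level over a list -/
theorem fMap [TDec α] [TDec β] [TDec γ] {l : α → List β} (hl : Poly l)
    {F : α × β → γ} (hF : CFn (SigmaP k) F) :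
    CFn (SigmaP (k + 2)) (fun a => (l a).map (fun b => F (a, b))) := by
  obtain ⟨⟨ρ, hρ⟩, h⟩ := hF
  obtain ⟨r, hr⟩ := hl.sz_le
  refine ⟨⟨r * (ρ.comp (Polynomial.X + r + 1) + 1) + 1, fun a => ?_⟩, ?_⟩
  · have h1 := sz_le_length_mul ((l a).map (fun b => F (a, b)))
      (ρ.eval (sz a + r.eval (sz a) + 1)) (fun c hc => by
        obtain ⟨b, hb, rfl⟩ := List.mem_map.1 hc
        refine (hρ _).trans (eval_mono ρ ?_)
        rw [sz_pair]
        have := sz_le_of_mem hb
        have := hr a
        omega)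
    rw [List.length_map] at h1
    simp only [Polynomial.eval_add, Polynomial.eval_mul, Polynomial.eval_one, Polynomial.eval_comp,
      Polynomial.eval_X]
    refine h1.trans (Nat.succ_le_succ (Nat.mul_le_mul_right _ ?_))
    have := length_lt_sz (l a)
    have := hr a
    omega
  · -- the positions
    have h1 : CPr (SigmaP (k + 1)) (fun q : (α × List γ) × List Bool =>
        ∃ b, ((l q.1.1).zip q.1.2)[q.2.length]?.map (fun p => ((q.1.1, p.1), p.2)) = some b ∧
          ¬ F b.1 = b.2) := by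
      refine sPart (P := fun b : (α × β) × γ => ¬ F b.1 = b.2)
        (f := fun q : (α × List γ) × List Bool =>
        ((l q.1.1).zip q.1.2)[q.2.length]?.map (fun p => ((q.1.1, p.1), p.2))) (sNot h) ?_
      refine NPC.Poly.optMap
        (o := fun q : (α × List γ) × List Bool => ((l q.1.1).zip q.1.2)[q.2.length]?)
        (f := fun (q : (α × List γ) × List Bool) (p : β × γ) => ((q.1.1, p.1), p.2)) ?_ ?_
      · exact NPC.Poly.getElem? (NPC.Poly.zip (hl.comp (NPC.Poly.fst (NPC.Poly.fst NPC.Poly.id)))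
          (NPC.Poly.snd (NPC.Poly.fst NPC.Poly.id))) (NPC.Poly.length (NPC.Poly.snd NPC.Poly.id))
      · exact NPC.Poly.pair (NPC.Poly.pair (NPC.Poly.fst (NPC.Poly.fst (NPC.Poly.fst NPC.Poly.id)))
          (NPC.Poly.fst (NPC.Poly.snd NPC.Poly.id))) (NPC.Poly.snd (NPC.Poly.snd NPC.Poly.id))
    have h2 : CPr (SigmaP (k + 2)) (fun q : α × List γ => (l q.1).length = q.2.length) := by
      refine (sPoly (d := fun q : α × List γ => Decidable.decide
        ((l q.1).length = q.2.length)) (NPC.Poly.decide_eq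
        (NPC.Poly.length (hl.comp (NPC.Poly.fst NPC.Poly.id)))
        (NPC.Poly.length (NPC.Poly.snd NPC.Poly.id)))).congr fun q => ?_
      rw [decide_eq_true_eq]
    refine (sAnd h2 (sNot (sExW h1 (Polynomial.X)))).congr fun q => ?_
    obtain ⟨a, L'⟩ := q
    simp only [Polynomial.eval_X]
    constructor
    · rintro ⟨h3, h4⟩
      apply List.ext_getElem
      · rw [List.length_map, h3]
      · intro i hi1 hi2
        rw [List.length_map] at hi1
        rw [List.getElem_map]
        by_contra hne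
        refine h4 ⟨List.replicate i false, ?_, ((a, (l a)[i]), L'[i]), ?_, hne⟩
        · rw [List.length_replicate, sz_pair]
          have := length_lt_sz L'
          omega
        · rw [List.length_replicate, List.getElem?_eq_getElem (by
            rw [List.length_zip]; omega), Option.map_some, List.getElem_zip]
    · rintro rfl
      refine ⟨by rw [List.length_map], ?_⟩
      rintro ⟨w, _, b, hb, hne⟩
      obtain ⟨p, hp, hpb⟩ := Option.map_eq_some_iff.1 hb
      obtain ⟨hi, hp2⟩ := List.getElem?_eq_some_iff.1 hp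
      rw [List.getElem_zip] at hp2
      apply hne
      rw [← hpb, ← hp2]
      simp

/-- computable in the level: from the graph on strings to the calculus -/
theorem fToCFn {g : List Bool → List (Option Bool)} (h : FnIn (SigmaP k) g) :
    CFn (SigmaP k) g := by
  obtain ⟨⟨p, hp⟩, hg⟩ := h
  refine ⟨⟨p * 8 + 1, fun a => ?_⟩, ?_⟩
  · have h1 := sz_le_length_mul (g a) 7 (fun o _ => by
      cases o with
      | none => exact le_trans (by simp [sz_none]) (by norm_num : (1 : ℕ) ≤ 7)
      | some b =>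
        rw [sz_some]
        have := sz_bool_le b
        omega)
    have h2 := hp a
    have h3 := eval_mono p (length_lt_sz a).le
    simp only [Polynomial.eval_add, Polynomial.eval_mul, Polynomial.eval_one,
      Polynomial.eval_ofNat]
    refine h1.trans (Nat.succ_le_succ (Nat.mul_le_mul_right _ (h2.trans h3)))
  · have h1 : CPr (SigmaP k) (fun x : List Bool => ∃ y, x = pairBits y (bits (g y))) :=
      sOf_raw hg
    have h2 := sComp h1 (f := fun q : List Bool × List (Option Bool) => pairBits q.1 (bits q.2))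
      (H622R2.poly_pairBits (NPC.Poly.fst NPC.Poly.id) (bits_poly.comp (NPC.Poly.snd NPC.Poly.id)))
    refine h2.congr fun q => ?_
    constructor
    · rintro ⟨y, hy⟩
      have h3 := congrArg unpair hy
      rw [unpair_pairBits, unpair_pairBits, Prod.mk.injEq] at h3
      rw [h3.1]
      exact (bits_injective h3.2).symm
    · intro h3
      exact ⟨q.1, by rw [h3]⟩

theorem fOfCFn {g : List Bool → List (Option Bool)} (h : CFn (SigmaP k) g) :
    FnIn (SigmaP k) g := by
  obtain ⟨⟨ρ, hρ⟩, hg⟩ := h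
  refine ⟨⟨ρ.comp (Polynomial.C 4 * Polynomial.X + 1), fun x => ?_⟩, ?_⟩
  · have h1 := length_lt_sz (g x)
    have h2 := hρ x
    have h3 := eval_mono ρ (sz_listBool_le x)
    rw [Polynomial.eval_comp]
    simp only [Polynomial.eval_add, Polynomial.eval_mul, Polynomial.eval_C, Polynomial.eval_X,
      Polynomial.eval_one]
    omega
  · refine sTo_raw ?_
    have h1 := sPart hg (f := fun z : List Bool =>
      (unbits (List (Option Bool)) (unpair z).2).map (fun b => ((unpair z).1, b)))
      (NPC.Poly.optMap (o := fun z : List Bool => unbits (List (Option Bool)) (unpair z).2)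
        (f := fun (z : List Bool) b => ((unpair z).1, b))
        (poly_unbits.comp (NPC.Poly.snd poly_unpair))
        (NPC.Poly.pair (NPC.Poly.fst (poly_unpair.comp (NPC.Poly.fst NPC.Poly.id)))
          (NPC.Poly.snd NPC.Poly.id)))
    have h2 : CPr (SigmaP k) (fun z : List Bool =>
        decide (z = pairBits (unpair z).1 (unpair z).2) = true) :=
      sPoly (NPC.Poly.decide_eq NPC.Poly.id (H622R2.poly_pairBits
        (NPC.Poly.fst poly_unpair) (NPC.Poly.snd poly_unpair)))
    refine (sAnd h1 h2).congr fun z => ?_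
    rw [decide_eq_true_eq]
    constructor
    · rintro ⟨⟨q, hq, hgq⟩, hz⟩
      obtain ⟨b, hb, hqb⟩ := Option.map_eq_some_iff.1 hq
      refine ⟨(unpair z).1, ?_⟩
      rw [← hqb] at hgq
      simp only at hgq
      rw [hgq, bits_of_unbits hb]
      exact hz
    · rintro ⟨x, rfl⟩
      rw [unpair_pairBits, unbits_bits]
      exact ⟨⟨(x, g x), rfl, rfl⟩, rfl⟩

/-- The decision is computable in a higher level. -/
theorem fDcd [TDec α]
    {E : List (List Bool) → List (List (Option Bool))} (hE : CFn (SigmaP (k + 1)) E)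
    {G : α × List (List Bool) → List (List Bool)} (hG : Poly G) {m : α → ℕ} (hm : UPoly m)
    {adv : α → List Item} (hadv : Poly adv) {y : α → List Bool} (hy : Poly y) :
    CFn (SigmaP (k + 3)) (fun a => NU.dcd (fun z => E (G (a, z))) (m a) (adv a) (y a)) := by
  have e1 : Poly (fun q : α × Item => q.1) := NPC.Poly.fst NPC.Poly.id
  have e2 : Poly (fun q : α × Item => q.2.1) := NPC.Poly.fst (NPC.Poly.snd NPC.Poly.id)
  have e3 : Poly (fun q : α × Item => q.2.2) := NPC.Poly.snd (NPC.Poly.snd NPC.Poly.id)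
  have e4 : Poly (fun q : α × Item => q.2.1.map Prod.fst) :=
    NPC.Poly.map (F := fun _ (p : List Bool × Bool) => p.1) e2
      (NPC.Poly.fst (NPC.Poly.snd NPC.Poly.id))
  have e6 : Poly (fun q : α × Item => q.2.1.map Prod.fst ++ y q.1 :: q.2.2) :=
    NPC.Poly.append e4 (NPC.Poly.cons (hy.comp e1) e3)
  have h1 : CFn (SigmaP (k + 1))
      (fun q : α × Item => E (G (q.1, q.2.1.map Prod.fst ++ y q.1 :: q.2.2))) :=
    fCompPoly hE (hG.comp (NPC.Poly.pair e1 e6))
  have h2 : CFn (SigmaP (k + 3))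
      (fun a => (adv a).map (fun q => E (G (a, q.1.map Prod.fst ++ y a :: q.2)))) :=
    fMap hadv h1
  have h3 : CFn (SigmaP (k + 3))
      (fun a => (a, (adv a).map (fun q => E (G (a, q.1.map Prod.fst ++ y a :: q.2))))) :=
    fPair (fPoly NPC.Poly.id) h2
  -- the polynomial-time part
  have h4 : Poly (fun r : α × List (List (List (Option Bool))) =>
      decide (2 * m r.1 * (adv r.1).length < (((adv r.1).zip r.2).map (fun t : Item ×
        List (List (Option Bool)) => opin (m r.1) (clean (m r.1) t.2) (t.1.1.map Prod.snd))).sum)) := by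
    have f1 : Poly (fun r : α × List (List (List (Option Bool))) => r.1) := NPC.Poly.fst NPC.Poly.id
    refine NPC.Poly.decide_lt (NPC.Poly.mul (NPC.Poly.mul (NPC.Poly.const 2) (hm.toPoly.comp f1))
      (NPC.Poly.length (hadv.comp f1))) (NPC.Poly.sum (NPC.Poly.map
        (l := fun r : α × List (List (List (Option Bool))) => (adv r.1).zip r.2)
        (F := fun r (t : Item × List (List (Option Bool))) => opin (m r.1) (clean (m r.1) t.2)
          (t.1.1.map Prod.snd)) (NPC.Poly.zip (hadv.comp f1) (NPC.Poly.snd NPC.Poly.id)) ?_))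
    have g1 : Poly (fun s : (α × List (List (List (Option Bool)))) × (Item ×
        List (List (Option Bool))) => s.1.1) := NPC.Poly.fst (NPC.Poly.fst NPC.Poly.id)
    have g2 : Poly (fun s : (α × List (List (List (Option Bool)))) × (Item ×
        List (List (Option Bool))) => s.2.2) := NPC.Poly.snd (NPC.Poly.snd NPC.Poly.id)
    have g3 : Poly (fun s : (α × List (List (List (Option Bool)))) × (Item ×
        List (List (Option Bool))) => s.2.1.1) :=
      NPC.Poly.fst (NPC.Poly.fst (NPC.Poly.snd NPC.Poly.id))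
    have g4 : Poly (fun s : (α × List (List (List (Option Bool)))) × (Item ×
        List (List (Option Bool))) => s.2.1.1.map Prod.snd) :=
      NPC.Poly.map (F := fun _ (p : List Bool × Bool) => p.2) g3
        (NPC.Poly.snd (NPC.Poly.snd NPC.Poly.id))
    exact opin_poly (hm.comp g1) (clean_poly (hm.toPoly.comp g1) g2) g4
  refine (fComp (fPoly h4) h3).congr fun a => ?_
  unfold NU.dcd pred
  congr 3
  simp only
  generalize adv a = l
  induction l with
  | nil => rfl
  | cons q l ih =>
    rw [List.map_cons, List.zip_cons_cons, List.map_cons, List.map_cons, ih]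

end

end Pool.Agent.W901.PX
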