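import Pool.Agent.W901.PX.LvA

/-!
# Predictions in a fixed level of the polynomial hierarchy
-/

set_option autoImplicit false

namespace Pool.Agent.W901.PX

open Pool.Agent.NPC Pool.Agent.H251R5.PQ Pool.Agent.W901.AT Pool.Agent.H579R2.Spt
open Pool.Agent.W901.NU
open Pool.Agent.W903.GP (InPH SigmaP sigma_props sigma_ex sigma_succ sigma_mono u1 u1_pair poly_u1
  pid)

/-- the unary number -/
def un (n : ℕ) : List Bool := List.replicate n false

theorem un_length (n : ℕ) : (un n).length = n := List.length_replicate ..

theorem un_poly {α : Type} [TEnc α] {f : α → ℕ} (hf : UPoly f) : Poly (fun a => un (f a)) :=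
  Pool.Agent.H623R2.PS.poly_replicate hf false

/-- Advice of polynomial length and a decision procedure of a given level. -/
def AdvAt (l : ℕ) (A : Set (List Bool)) : Prop :=
  ∃ D : (List Bool × List Item) × List Bool → Bool, CFn (SigmaP l) D ∧
    ∃ Pa : Polynomial ℕ, ∀ n : ℕ, ∃ adv : List Item, sz adv ≤ Pa.eval n ∧
      ∀ u : List Bool, u.length ≤ n → (D ((un n, adv), u) = true ↔ u ∈ A)

/-- **Advice from predictions in a level.** -/
theorem advAt_of_predIn {c : ℕ} {f : ℕ → ℝ} {ε : ℝ}
    (hf : Filter.Tendsto (fun m : ℕ => f m / Real.sqrt (Real.log m)) Filter.atTop Filter.atTop)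
    (hε : 0 < ε) {A : Set (List Bool)} (h : PredIn (SigmaP c) f ε A) : AdvAt (c + 4) A := by
  obtain ⟨g, b, hg, hX⟩ := h
  obtain ⟨c', hc⟩ := exists_nat_ge (1 / ε)
  have hc1 : 1 ≤ (c' : ℝ) * ε := by
    rwa [div_le_iff₀ hε] at hc
  -- from some length on the advantage is positive
  obtain ⟨M0, hM0⟩ := big_of_tendsto hf 0
  set f' : ℕ → ℝ := fun m => if M0 ≤ m then f m else 0 with hf'
  set E : List (List Bool) → List (List (Option Bool)) := fun qs =>
    (enuStep^[b * (Nat.log 2 (bits qs).length + 1)] [[]]).map
      (fun t => g (pairBits (bits qs) t)) with hEdef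
  have hE : CFn (SigmaP (c + 2)) E := by
    refine fMap (l := fun qs : List (List Bool) =>
      enuStep^[b * (Nat.log 2 (bits qs).length + 1)] [[]])
      (F := fun p : List (List Bool) × List Bool => g (pairBits (bits p.1) p.2))
      (enu_poly_all b) ?_
    exact fCompPoly (fToCFn hg) (H622R2.poly_pairBits
      (enu_poly_bits.comp (Poly.fst Poly.id)) (Poly.snd Poly.id))
  have hE' := hE
  obtain ⟨⟨pE, hpE⟩, _⟩ := hE'
  obtain ⟨Pm, Pa, _, hadv⟩ := adv_of_szEnum_s (A := A) (c := c') (f := f') (fun e => by
      obtain ⟨M, hM⟩ := big_of_tendsto hf e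
      refine ⟨max M M0, fun m hm => ?_⟩
      have h1 : f' m = f m := if_pos (le_trans (le_max_right _ _) hm)
      rw [h1]
      exact hM m (le_trans (le_max_left _ _) hm)) hpE (fun qs hqs hlen => by
      obtain ⟨t, ht, hb⟩ := hX qs hqs (fun y hy =>
        length_cond hε hc1 (length_pos hqs) (hlen y hy))
      refine ⟨_, List.mem_map.2 ⟨t, enu_mem _ _ ht, rfl⟩, ?_⟩
      by_cases hm : M0 ≤ qs.length
      · have h1 : f' qs.length = f qs.length := if_pos hm
        rw [h1]
        exact sgood_of_beatsBy (hM0 _ hm).1 hb
      · have h1 : f' qs.length = 0 := if_neg hm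
        rw [h1]
        refine ⟨by rw [hb.1]; simp [answers], hb.2.1, ?_⟩
        simp only [ne_eq, OfNat.ofNat_ne_zero, not_false_eq_true, zero_pow, zero_mul]
        positivity)
      (κ := Bool) (F := fun z : Bool × List Bool => z.2) (NPC.Poly.snd NPC.Poly.id)
  refine ⟨fun z => dcd (fun y => E (y.map (fun u => u))) (Pm.eval (z.1.1.length + 3)) z.1.2 z.2,
    ?_, Pa.comp (Polynomial.X + 3), fun n => ?_⟩
  · have e1 : Poly (fun z : (List Bool × List Item) × List Bool => z.1.1) :=
      NPC.Poly.fst (NPC.Poly.fst NPC.Poly.id)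
    have e2 : UPoly (fun z : (List Bool × List Item) × List Bool =>
        Pm.eval (z.1.1.length + 3)) := ((UPoly.length e1).add (UPoly.const 3)).eval Pm
    have e3 : Poly (fun q : ((List Bool × List Item) × List Bool) × List (List Bool) =>
        q.2.map (fun u => u)) :=
      NPC.Poly.map (l := fun q : ((List Bool × List Item) × List Bool) ×
        List (List Bool) => q.2) (F := fun _ u => u) (NPC.Poly.snd NPC.Poly.id)
        (NPC.Poly.snd NPC.Poly.id)
    exact fDcd hE (G := fun q : ((List Bool × List Item) × List Bool) × List (List Bool) =>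
        q.2.map (fun u => u)) e3 e2 (NPC.Poly.snd (NPC.Poly.fst NPC.Poly.id))
      (NPC.Poly.snd NPC.Poly.id)
  · obtain ⟨adv, h1, h2⟩ := hadv (n + 3) true (by have := sz_bool_le true; omega)
    refine ⟨adv, by simpa [Polynomial.eval_comp] using h1, fun u hu => ?_⟩
    simp only [un_length]
    exact h2 u (by omega)

/-- The advice is right for all questions up to the given length. -/
def Right (D : (List Bool × List Item) × List Bool → Bool) (A : Set (List Bool))
    (z : List Bool × List Item) : Prop :=
  ∀ u : List Bool, u.length ≤ z.1.length → (D (z, u) = true ↔ u ∈ A)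

theorem right_level {l : ℕ} (hadv : ∀ A : Set (List Bool), InPH A → AdvAt (l + 1) A) (j : ℕ) :
    ∀ A : Set (List Bool), SigmaP j A → ∀ D : (List Bool × List Item) × List Bool → Bool,
      CFn (SigmaP (l + 1)) D → CPr (SigmaP (l + 5)) (Right D A) := by
  have hlen : ∀ {k : ℕ}, CPr (SigmaP k) (fun q : (List Bool × List Item) × List Bool =>
      q.2.length ≤ q.1.1.length) := fun {k} => by
    refine (sPoly (d := fun q : (List Bool × List Item) × List Bool =>
      decide (q.2.length ≤ q.1.1.length)) (NPC.Poly.decide_le (NPC.Poly.length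
        (NPC.Poly.snd NPC.Poly.id)) (NPC.Poly.length (NPC.Poly.fst (NPC.Poly.fst
          NPC.Poly.id))))).congr fun q => by rw [decide_eq_true_eq]
  have hnlen : ∀ {k : ℕ}, CPr (SigmaP k) (fun q : (List Bool × List Item) × List Bool =>
      ¬ q.2.length ≤ q.1.1.length) := fun {k} => by
    refine (sPoly (d := fun q : (List Bool × List Item) × List Bool =>
      decide (¬ q.2.length ≤ q.1.1.length)) ((NPC.Poly.decide_lt (NPC.Poly.length (NPC.Poly.fst
        (NPC.Poly.fst NPC.Poly.id))) (NPC.Poly.length
        (NPC.Poly.snd NPC.Poly.id))).congr fun q => by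
          simp [not_le])).congr fun q => by rw [decide_eq_true_eq]
  induction j with
  | zero =>
    intro A hA D hD
    have hD1 : CPr (SigmaP (l + 1)) (fun q : (List Bool × List Item) × List Bool =>
        D q = true) := fIsTrue hD
    have hD0 : CPr (SigmaP (l + 1)) (fun q : (List Bool × List Item) × List Bool =>
        D q = false) := fIsFalse hD
    have hA1 : CPr (SigmaP (l + 1)) (fun q : (List Bool × List Item) × List Bool => q.2 ∈ A) :=
      sMono (Nat.zero_le _) (sComp (sOf_raw hA)
        (f := fun q : (List Bool × List Item) × List Bool => q.2) (NPC.Poly.snd NPC.Poly.id))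
    have hA0 : CPr (SigmaP (l + 1)) (fun q : (List Bool × List Item) × List Bool => q.2 ∉ A) :=
      sMono (by omega) (sComp (sNot (sOf_raw hA))
        (f := fun q : (List Bool × List Item) × List Bool => q.2) (NPC.Poly.snd NPC.Poly.id))
    refine (sMono (by omega : l + 3 ≤ l + 5) (sAllW (sOr hnlen (sOr (sAnd hD1 hA1)
      (sAnd hD0 hA0))) Polynomial.X)).congr fun z => ?_
    simp only [Polynomial.eval_X]
    constructor
    · intro h u hu
      have hu2 : u.length ≤ sz z := by
        have h1 := length_lt_sz z.1
        have h2 : sz z = sz z.1 + sz z.2 + 1 := sz_pair z.1 z.2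
        omega
      rcases h u hu2 with h3 | h3 | h3
      · exact absurd hu h3
      · exact ⟨fun _ => h3.2, fun _ => h3.1⟩
      · refine ⟨fun h4 => ?_, fun h4 => absurd h4 h3.2⟩
        rw [h3.1] at h4
        exact absurd h4 (by simp)
    · intro h u _
      by_cases hu : u.length ≤ z.1.length
      · right
        have h1 := h u hu
        by_cases hA' : u ∈ A
        · exact Or.inl ⟨h1.2 hA', hA'⟩
        · refine Or.inr ⟨?_, hA'⟩
          rw [← Bool.not_eq_true, h1]
          exact hA'
      · exact Or.inl hu
  | succ j ih =>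
    rintro A ⟨M, p, hM, hAM⟩ D hD
    obtain ⟨D', hD', Pa, hPa⟩ := hadv M ⟨j, hM⟩
    have hR := ih M hM D' hD'
    set q : Polynomial ℕ := 2 * Polynomial.X + 1 + p with hq
    have eq : ∀ n, q.eval n = 2 * n + 1 + p.eval n := fun n => by simp [hq]
    -- the types of the tuples: `(z, adv')`, `((z, adv'), u)`, `(((z, adv'), u), w)`
    have t0 : Poly (fun y : (((List Bool × List Item) × List Item) × List Bool) × List Bool =>
        y.1) := NPC.Poly.fst NPC.Poly.id
    have t1 : Poly (fun y : (((List Bool × List Item) × List Item) × List Bool) × List Bool =>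
        y.2) := NPC.Poly.snd NPC.Poly.id
    have t2 : Poly (fun y : (((List Bool × List Item) × List Item) × List Bool) × List Bool =>
        y.1.2) := NPC.Poly.snd t0
    have t3 : Poly (fun y : (((List Bool × List Item) × List Item) × List Bool) × List Bool =>
        y.1.1.2) := NPC.Poly.snd (NPC.Poly.fst t0)
    have t4 : Poly (fun y : (((List Bool × List Item) × List Item) × List Bool) × List Bool =>
        y.1.1.1.1) := NPC.Poly.fst (NPC.Poly.fst (NPC.Poly.fst t0))
    have tq : Poly (fun y : (((List Bool × List Item) × List Item) × List Bool) × List Bool =>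
        ((un (q.eval y.1.1.1.1.length), y.1.1.2), pairBits y.1.2 y.2)) :=
      NPC.Poly.pair (NPC.Poly.pair (un_poly ((UPoly.length t4).eval q)) t3)
        (H622R2.poly_pairBits t2 t1)
    have tl : Poly (fun y : (((List Bool × List Item) × List Item) × List Bool) × List Bool =>
        decide (y.2.length ≤ p.eval y.1.2.length)) :=
      NPC.Poly.decide_le (NPC.Poly.length t1) ((UPoly.length t2).eval p).toPoly
    have B1 : CPr (SigmaP (l + 1))
        (fun y : (((List Bool × List Item) × List Item) × List Bool) × List Bool =>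
          decide (y.2.length ≤ p.eval y.1.2.length) = true ∧
            D' ((un (q.eval y.1.1.1.1.length), y.1.1.2), pairBits y.1.2 y.2) = false) :=
      sAnd (sPoly tl) (sComp (P := fun z => D' z = false) (fIsFalse hD') tq)
    have B2 : CPr (SigmaP (l + 1))
        (fun y : (((List Bool × List Item) × List Item) × List Bool) × List Bool =>
          (!decide (y.2.length ≤ p.eval y.1.2.length)) = true ∨
            D' ((un (q.eval y.1.1.1.1.length), y.1.1.2), pairBits y.1.2 y.2) = true) :=
      sOr (sPoly (NPC.Poly.not tl)) (sComp (P := fun z => D' z = true) (fIsTrue hD') tq)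
    have g0 : Poly (fun y : ((List Bool × List Item) × List Item) × List Bool =>
        (y.1.1, y.2)) := NPC.Poly.pair (NPC.Poly.fst (NPC.Poly.fst NPC.Poly.id))
          (NPC.Poly.snd NPC.Poly.id)
    have B3 : CPr (SigmaP (l + 3))
        (fun y : ((List Bool × List Item) × List Item) × List Bool =>
          (D (y.1.1, y.2) = true ∧ ∃ w : List Bool, w.length ≤ p.eval (sz y) ∧
            (decide (w.length ≤ p.eval y.2.length) = true ∧
              D' ((un (q.eval y.1.1.1.length), y.1.2), pairBits y.2 w) = false)) ∨
          (D (y.1.1, y.2) = false ∧ ∀ w : List Bool, w.length ≤ p.eval (sz y) →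
            ((!decide (w.length ≤ p.eval y.2.length)) = true ∨
              D' ((un (q.eval y.1.1.1.length), y.1.2), pairBits y.2 w) = true))) := by
      refine sOr (sMono (by omega : l + 1 ≤ l + 3) (sAnd ?_ ?_)) (sAnd ?_ ?_)
      · exact sComp (P := fun z => D z = true) (fIsTrue hD) g0
      · exact sExW B1 p
      · exact sMono (by omega : l + 1 ≤ l + 3) (sComp (P := fun z => D z = false) (fIsFalse hD) g0)
      · exact sAllW B2 p
    have B4 : CPr (SigmaP (l + 3))
        (fun y : ((List Bool × List Item) × List Item) × List Bool =>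
          ¬ y.2.length ≤ y.1.1.1.length) :=
      sComp (P := fun q : (List Bool × List Item) × List Bool => ¬ q.2.length ≤ q.1.1.length)
        hnlen g0
    have B5 := sAllW (sOr B4 B3) Polynomial.X
    have B6 : CPr (SigmaP (l + 5)) (fun y : (List Bool × List Item) × List Item =>
        Right D' M (un (q.eval y.1.1.length), y.2)) :=
      sComp (P := fun z => Right D' M z) hR (NPC.Poly.pair (un_poly ((UPoly.length
        (NPC.Poly.fst (NPC.Poly.fst NPC.Poly.id))).eval q)) (NPC.Poly.snd NPC.Poly.id))
    refine (sEx (k := l + 4) (sAnd B6 B5) (Pa.comp q)).congr fun z => ?_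
    have hszz : z.1.length ≤ sz z := by
      have h1 := length_lt_sz z.1
      have h2 : sz z = sz z.1 + sz z.2 + 1 := sz_pair z.1 z.2
      omega
    -- the meaning of the inner formula
    have hmean : ∀ (adv : List Item), Right D' M (un (q.eval z.1.length), adv) →
        ∀ u : List Bool, u.length ≤ z.1.length →
        ((D (z, u) = true ∧ ∃ w : List Bool, w.length ≤ p.eval (sz ((z, adv), u)) ∧
            (decide (w.length ≤ p.eval u.length) = true ∧
              D' ((un (q.eval z.1.length), adv), pairBits u w) = false)) ∨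
          (D (z, u) = false ∧ ∀ w : List Bool, w.length ≤ p.eval (sz ((z, adv), u)) →
            ((!decide (w.length ≤ p.eval u.length)) = true ∨
              D' ((un (q.eval z.1.length), adv), pairBits u w) = true)) ↔
        (D (z, u) = true ↔ u ∈ A)) := by
      intro adv hr u hu
      have hus : u.length ≤ sz ((z, adv), u) := by
        have h1 := length_lt_sz u
        have h2 : sz ((z, adv), u) = sz (z, adv) + sz u + 1 := sz_pair (z, adv) u
        omega
      have hw : ∀ w : List Bool, w.length ≤ p.eval u.length →
          (D' ((un (q.eval z.1.length), adv), pairBits u w) = true ↔ pairBits u w ∈ M) := by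
        intro w hw
        refine hr _ ?_
        simp only [un_length]
        rw [pairBits_length, eq]
        have h3 := eval_mono p hu
        omega
      have e1 : (∃ w : List Bool, w.length ≤ p.eval (sz ((z, adv), u)) ∧
            (decide (w.length ≤ p.eval u.length) = true ∧
              D' ((un (q.eval z.1.length), adv), pairBits u w) = false)) ↔ u ∈ A := by
        rw [hAM]
        constructor
        · rintro ⟨w, _, h1, h2⟩
          rw [decide_eq_true_eq] at h1
          refine ⟨w, h1, ?_⟩
          rw [← hw w h1, h2]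
          simp
        · rintro ⟨w, h1, h2⟩
          refine ⟨w, h1.trans (eval_mono p hus), by rw [decide_eq_true_eq]; exact h1, ?_⟩
          rw [← Bool.not_eq_true, hw w h1]
          exact h2
      have e2 : (∀ w : List Bool, w.length ≤ p.eval (sz ((z, adv), u)) →
            ((!decide (w.length ≤ p.eval u.length)) = true ∨
              D' ((un (q.eval z.1.length), adv), pairBits u w) = true)) ↔ u ∉ A := by
        rw [hAM]
        constructor
        · rintro h ⟨w, h1, h2⟩
          rcases h w (h1.trans (eval_mono p hus)) with h3 | h3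
          · simp [h1] at h3
          · exact h2 ((hw w h1).1 h3)
        · intro h w _
          by_cases h1 : w.length ≤ p.eval u.length
          · right
            rw [hw w h1]
            by_contra h2
            exact h ⟨w, h1, h2⟩
          · left
            simp [h1]
      rw [e1, e2, ← Bool.not_eq_true]
      tauto
    constructor
    · rintro ⟨adv, _, hr, h⟩ u hu
      simp only at hr h
      have h1 := h u (by
        rw [Polynomial.eval_X]
        have h2 : sz (z, adv) = sz z + sz adv + 1 := sz_pair z adv
        omega)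
      rcases h1 with h1 | h1
      · exact absurd hu h1
      · exact (hmean adv hr u hu).1 h1
    · intro h
      obtain ⟨adv, ha, hr⟩ := hPa (q.eval z.1.length)
      have hr' : Right D' M (un (q.eval z.1.length), adv) := fun u hu => hr u (by
        rw [un_length] at hu
        exact hu)
      refine ⟨adv, ?_, hr', fun u _ => ?_⟩
      · rw [Polynomial.eval_comp]
        exact ha.trans (eval_mono Pa (eval_mono q hszz))
      · by_cases hu : u.length ≤ z.1.length
        · exact Or.inr ((hmean adv hr' u hu).2 (h u hu))
        · exact Or.inl hu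

/-- **Advice in a fixed level for all sets of the hierarchy makes it collapse.** -/
theorem ph_sub {l : ℕ} (hadv : ∀ A : Set (List Bool), InPH A → AdvAt (l + 1) A) :
    ∀ L : Set (List Bool), InPH L → SigmaP (l + 5) L := by
  rintro L ⟨j, hL⟩
  obtain ⟨D, hD, Pa, hPa⟩ := hadv L ⟨j, hL⟩
  have hR := right_level hadv j L hL D hD
  have h1 : Poly (fun q : List Bool × List Item => (un q.1.length, q.2)) :=
    NPC.Poly.pair (un_poly (UPoly.length (NPC.Poly.fst NPC.Poly.id))) (NPC.Poly.snd NPC.Poly.id)
  have h2 : CPr (SigmaP (l + 5)) (fun q : List Bool × List Item =>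
      Right D L (un q.1.length, q.2)) := sComp (P := fun z => Right D L z) hR h1
  have h3 : CPr (SigmaP (l + 5)) (fun q : List Bool × List Item =>
      D ((un q.1.length, q.2), q.1) = true) :=
    sMono (by omega : l + 1 ≤ l + 5) (sComp (P := fun z => D z = true) (fIsTrue hD)
      (NPC.Poly.pair h1 (NPC.Poly.fst NPC.Poly.id)))
  have h4 := sTo_raw ((sEx (k := l + 4) (sAnd h2 h3) Pa).congr (Q := fun x : List Bool => x ∈ L)
    fun x => by
      constructor
      · rintro ⟨adv, _, hr, hd⟩
        exact (hr x (by rw [un_length])).1 hd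
      · intro hx
        obtain ⟨adv, ha, hr⟩ := hPa x.length
        refine ⟨adv, ha.trans (eval_mono Pa (length_lt_sz x).le), fun u hu => hr u (by
          rw [un_length] at hu
          exact hu), (hr x le_rfl).2 hx⟩)
  exact h4

/-- **The threshold law for the collapse of the polynomial hierarchy.** -/
theorem collapse_law {f : ℕ → ℝ} {ε : ℝ} (hε : 0 < ε)
    (hf1 : ∀ m : ℕ, 1 ≤ m → f m ≤ Real.sqrt m)
    (hf : Filter.Tendsto (fun m : ℕ => f m / Real.sqrt (Real.log m)) Filter.atTop Filter.atTop) :
    List.TFAE
      [∃ c, ∀ L : Set (List Bool), InPH L → SigmaP c L,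
        ∃ c, ∀ A : Set (List Bool), InPH A → PredIn (SigmaP c) f ε A,
        ∃ c, ∀ A : Set (List Bool), InPH A → FullyPredIn (SigmaP c) f A] := by
  tfae_have 1 → 3 := by
    rintro ⟨c, h⟩
    refine ⟨c, fun A hA => ?_⟩
    obtain ⟨g, hg, h1⟩ := fullyPredIn_of_in cl_ph hf1 hA
    exact ⟨g, ⟨hg.1, h _ hg.2⟩, h1⟩
  tfae_have 3 → 2 := by
    rintro ⟨c, h⟩
    refine ⟨c, fun A hA => ?_⟩
    obtain ⟨g, hg, h⟩ := h A hA
    refine ⟨fun z => g (unpair z).1, 0, fOfCFn (fCompPoly (fToCFn hg)
      (NPC.Poly.fst poly_unpair)), fun qs hqs _ => ⟨[], by simp, ?_⟩⟩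
    simp only [unpair_pairBits]
    exact (h qs hqs).1
  tfae_have 2 → 1 := by
    rintro ⟨c, h⟩
    exact ⟨c + 8, ph_sub (l := c + 3) fun A hA => advAt_of_predIn hf hε (h A hA)⟩
  tfae_finish

/-- **Below the threshold everything is predictable in polynomial time.** -/
theorem sigma_predIn_of_le {f : ℕ → ℝ} {ε c : ℝ}
    (h1 : ∀ m : ℕ, 1 ≤ m → f m ≤ Real.sqrt m)
    (h2 : ∀ m : ℕ, 1 ≤ m → f m ≤ c * Real.sqrt (Real.log m)) (k : ℕ) (A : Set (List Bool)) :
    PredIn (SigmaP k) f ε A := by
  obtain ⟨b, hb⟩ := exists_hint h1 h2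
  exact ⟨prf, b, fOfCFn (fPoly prf_poly), fun qs hqs _ => hb A qs hqs⟩

end Pool.Agent.W901.PX
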