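import Pool.Agent.W901.PX.LvC

/-!
# Predictions in a level of the polynomial hierarchy: the collapse
-/

set_option autoImplicit false

namespace Pool.Agent.W901.PX

open Pool.Agent.NPC Pool.Agent.H251R5.PQ Pool.Agent.W901.AT Pool.Agent.H579R2.Spt
open Pool.Agent.W901.NU
open Pool.Agent.W903.GP (InPH SigmaP sigma_props sigma_ex sigma_succ sigma_mono u1 u1_pair poly_u1
  pid inP_iff)

/-- Advice which can be checked: a decision procedure of level `k + 1` and a test of level `k + 2`
for the advice. -/
def Chk (k : ℕ) (L : Set (List Bool)) : Prop :=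
  ∃ D : (List Bool × List Item) × List Bool → Bool, CFn (SigmaP (k + 1)) D ∧
    ∃ R : List Bool × List Item → Prop, CPr (SigmaP (k + 2)) R ∧
      (∀ z, R z → ∀ u : List Bool, u.length ≤ z.1.length → (D (z, u) = true ↔ u ∈ L)) ∧
      ∃ Pa : Polynomial ℕ, ∀ n : ℕ, ∃ adv : List Item, sz adv ≤ Pa.eval n ∧ R (un n, adv)

theorem chk_zero (k : ℕ) {L : Set (List Bool)} (hL : SigmaP 0 L) : Chk k L := by
  obtain ⟨d, hd, hdL⟩ := inP_iff.1 (show InP L from hL)
  refine ⟨fun y => d y.2, fPoly (hd.comp (NPC.Poly.snd NPC.Poly.id)), fun _ => True,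
    (sPoly (d := fun _ => true) (NPC.Poly.const true)).congr fun _ => by simp,
    fun z _ u _ => (hdL u).symm, Polynomial.C (sz ([] : List Item)), fun n => ⟨[], ?_, trivial⟩⟩
  rw [Polynomial.eval_C]

/-- the pairs of a question and a prefix of a witness -/
def Pre (p : Polynomial ℕ) (M : Set (List Bool)) : Set (List Bool) :=
  {y | ∃ w : List Bool, w.length ≤ p.eval (sz y) ∧
    (decide (w.length ≤ p.eval (unpair y).1.length) &&
      decide ((unpair y).2 = w.take (unpair y).2.length)) = true ∧
    ¬ pairBits (unpair y).1 w ∈ M}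

theorem pre_sigma {j : ℕ} (p : Polynomial ℕ) {M : Set (List Bool)} (hM : SigmaP j M) :
    SigmaP (j + 1) (Pre p M) := by
  have e1 : Poly (fun q : List Bool × List Bool => (unpair q.1).1) :=
    NPC.Poly.fst (poly_unpair.comp (NPC.Poly.fst NPC.Poly.id))
  have e2 : Poly (fun q : List Bool × List Bool => (unpair q.1).2) :=
    NPC.Poly.snd (poly_unpair.comp (NPC.Poly.fst NPC.Poly.id))
  have e3 : Poly (fun q : List Bool × List Bool => q.2) := NPC.Poly.snd NPC.Poly.id
  have h1 : CPr (SigmaP (j + 1)) (fun q : List Bool × List Bool =>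
      (decide (q.2.length ≤ p.eval (unpair q.1).1.length) &&
        decide ((unpair q.1).2 = q.2.take (unpair q.1).2.length)) = true) :=
    sPoly (NPC.Poly.and (NPC.Poly.decide_le (NPC.Poly.length e3)
      ((UPoly.length e1).eval p).toPoly) (NPC.Poly.decide_eq e2
        (take_poly' e3 (NPC.Poly.length e2))))
  have h2 : CPr (SigmaP (j + 1)) (fun q : List Bool × List Bool =>
      ¬ pairBits (unpair q.1).1 q.2 ∈ M) :=
    sNot (sComp (P := fun x : List Bool => x ∈ M) (sOf_raw hM) (H622R2.poly_pairBits e1 e3))
  exact sTo_raw (sExW (sAnd h1 h2) p)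

theorem mem_pre {p : Polynomial ℕ} {M : Set (List Bool)} {x v : List Bool} :
    pairBits x v ∈ Pre p M ↔ ∃ w : List Bool, w.length ≤ p.eval x.length ∧
      v = w.take v.length ∧ pairBits x w ∉ M := by
  unfold Pre
  rw [Set.mem_setOf_eq]
  constructor
  · rintro ⟨w, _, h1, h2⟩
    rw [unpair_pairBits, Bool.and_eq_true, decide_eq_true_eq, decide_eq_true_eq] at h1
    rw [unpair_pairBits] at h2
    exact ⟨w, h1.1, h1.2, h2⟩
  · rintro ⟨w, h1, h2, h3⟩
    refine ⟨w, h1.trans (eval_mono p ?_), ?_, ?_⟩
    · have g1 := length_lt_sz (pairBits x v)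
      rw [pairBits_length] at g1
      omega
    · rw [unpair_pairBits, Bool.and_eq_true, decide_eq_true_eq, decide_eq_true_eq]
      exact ⟨h1, h2⟩
    · rw [unpair_pairBits]
      exact h3

theorem pre_nil {p : Polynomial ℕ} {M : Set (List Bool)} {x : List Bool} :
    pairBits x [] ∈ Pre p M ↔ ∃ w : List Bool, w.length ≤ p.eval x.length ∧ pairBits x w ∉ M := by
  rw [mem_pre]
  refine exists_congr fun w => and_congr_right fun _ => ?_
  simp

theorem pre_long {p : Polynomial ℕ} {M : Set (List Bool)} {x v : List Bool}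
    (h : p.eval x.length < v.length) : pairBits x v ∉ Pre p M := by
  rw [mem_pre]
  rintro ⟨w, h1, h2, _⟩
  have h3 := congrArg List.length h2
  rw [List.length_take] at h3
  omega

theorem pre_step {p : Polynomial ℕ} {M : Set (List Bool)} {x v : List Bool}
    (h : v.length ≤ p.eval x.length) : pairBits x v ∈ Pre p M ↔
      (pairBits x v ∉ M ∨ (pairBits x (v ++ [false]) ∈ Pre p M ∨
        pairBits x (v ++ [true]) ∈ Pre p M)) := by
  have hb : ∀ b : Bool, pairBits x (v ++ [b]) ∈ Pre p M → pairBits x v ∈ Pre p M := by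
    intro b
    rw [mem_pre, mem_pre]
    rintro ⟨w, h1, h2, h3⟩
    refine ⟨w, h1, ?_, h3⟩
    have h4 := congrArg (List.take v.length) h2
    rw [List.take_left, List.take_take, List.length_append, List.length_singleton,
      min_eq_left (Nat.le_succ _)] at h4
    exact h4
  constructor
  · intro h1
    rw [mem_pre] at h1
    obtain ⟨w, h1, h2, h3⟩ := h1
    rcases lt_or_ge v.length w.length with h4 | h4
    · right
      have h5 : v ++ [w[v.length]] = w.take (v.length + 1) := by
        rw [List.take_succ_eq_append_getElem h4, ← h2]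
      have h6 : pairBits x (v ++ [w[v.length]]) ∈ Pre p M := by
        rw [mem_pre]
        refine ⟨w, h1, ?_, h3⟩
        rw [List.length_append, List.length_singleton]
        exact h5
      cases hw : w[v.length] with
      | false => left; rw [hw] at h6; exact h6
      | true => right; rw [hw] at h6; exact h6
    · left
      rw [List.take_of_length_le h4] at h2
      rw [h2]
      exact h3
  · rintro (h1 | h1 | h1)
    · rw [mem_pre]
      exact ⟨v, h, by simp, h1⟩
    · exact hb _ h1
    · exact hb _ h1

/-- the local test -/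
def tst (p : Polynomial ℕ)
    (y : (((List Bool × List Item) × List Item) × List Bool) × (Bool × (Bool × (Bool × Bool)))) :
    Bool :=
  bif decide ((unpair y.1.2).1.length ≤ y.1.1.1.1.length) &&
      decide ((unpair y.1.2).2.length ≤ p.eval (unpair y.1.2).1.length + 1) then
    decide (y.2.2.1 = (decide ((unpair y.1.2).2.length ≤ p.eval (unpair y.1.2).1.length) &&
      ((!y.2.1) || (y.2.2.2.1 || y.2.2.2.2))))
  else true

theorem tst_poly (p : Polynomial ℕ) : Poly (tst p) := by
  have a0 : Poly (fun y : (((List Bool × List Item) × List Item) × List Bool) ×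
      (Bool × (Bool × (Bool × Bool))) => y.1.1.1.1) :=
    NPC.Poly.fst (NPC.Poly.fst (NPC.Poly.fst (NPC.Poly.fst NPC.Poly.id)))
  have a1 : Poly (fun y : (((List Bool × List Item) × List Item) × List Bool) ×
      (Bool × (Bool × (Bool × Bool))) => (unpair y.1.2).1) :=
    NPC.Poly.fst (poly_unpair.comp (NPC.Poly.snd (NPC.Poly.fst NPC.Poly.id)))
  have a2 : Poly (fun y : (((List Bool × List Item) × List Item) × List Bool) ×
      (Bool × (Bool × (Bool × Bool))) => (unpair y.1.2).2) :=
    NPC.Poly.snd (poly_unpair.comp (NPC.Poly.snd (NPC.Poly.fst NPC.Poly.id)))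
  have a3 : Poly (fun y : (((List Bool × List Item) × List Item) × List Bool) ×
      (Bool × (Bool × (Bool × Bool))) => p.eval (unpair y.1.2).1.length) :=
    ((UPoly.length a1).eval p).toPoly
  have b0 : Poly (fun y : (((List Bool × List Item) × List Item) × List Bool) ×
      (Bool × (Bool × (Bool × Bool))) => y.2) := NPC.Poly.snd NPC.Poly.id
  unfold tst
  exact NPC.Poly.cond (NPC.Poly.and (NPC.Poly.decide_le (NPC.Poly.length a1)
      (NPC.Poly.length a0)) (NPC.Poly.decide_le (NPC.Poly.length a2)
        (NPC.Poly.add a3 (NPC.Poly.const 1))))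
    (NPC.Poly.decide_eq (NPC.Poly.fst (NPC.Poly.snd b0)) (NPC.Poly.and
      (NPC.Poly.decide_le (NPC.Poly.length a2) a3) (NPC.Poly.or (NPC.Poly.not (NPC.Poly.fst b0))
        (NPC.Poly.or (NPC.Poly.fst (NPC.Poly.snd (NPC.Poly.snd b0)))
          (NPC.Poly.snd (NPC.Poly.snd (NPC.Poly.snd b0)))))))
    (NPC.Poly.const true)

theorem chk_succ {k : ℕ} {L M : Set (List Bool)} {p : Polynomial ℕ}
    (hL : ∀ x : List Bool, x ∈ L ↔ ∃ w : List Bool, w.length ≤ p.eval x.length ∧ pairBits x w ∉ M)
    (hP : AdvAt (k + 1) (Pre p M)) (hM : Chk k M) : Chk k L := by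
  obtain ⟨DP, hDP, PP, hPP⟩ := hP
  obtain ⟨DM, hDM, RM, hRM, hRM1, PM, hPM⟩ := hM
  set q : Polynomial ℕ := 2 * Polynomial.X + 2 + p with hq
  have eq : ∀ n, q.eval n = 2 * n + 2 + p.eval n := fun n => by simp [hq]
  have hql : ∀ (n : ℕ) (x v : List Bool), x.length ≤ n → v.length ≤ p.eval x.length + 1 →
      (pairBits x v).length ≤ q.eval n := fun n x v hx hv => by
    rw [pairBits_length, eq]
    have := eval_mono p hx
    omega
  -- the values
  have c0 : Poly (fun y : ((List Bool × List Item) × List Item) × List Bool => y.1.1.1) :=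
    NPC.Poly.fst (NPC.Poly.fst (NPC.Poly.fst NPC.Poly.id))
  have c1 : Poly (fun y : ((List Bool × List Item) × List Item) × List Bool => y.1.1.2) :=
    NPC.Poly.snd (NPC.Poly.fst (NPC.Poly.fst NPC.Poly.id))
  have c2 : Poly (fun y : ((List Bool × List Item) × List Item) × List Bool => y.1.2) :=
    NPC.Poly.snd (NPC.Poly.fst NPC.Poly.id)
  have c3 : Poly (fun y : ((List Bool × List Item) × List Item) × List Bool => (unpair y.2).1) :=
    NPC.Poly.fst (poly_unpair.comp (NPC.Poly.snd NPC.Poly.id))
  have c4 : Poly (fun y : ((List Bool × List Item) × List Item) × List Bool => (unpair y.2).2) :=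
    NPC.Poly.snd (poly_unpair.comp (NPC.Poly.snd NPC.Poly.id))
  have c5 : Poly (fun y : ((List Bool × List Item) × List Item) × List Bool =>
      un (q.eval y.1.1.1.length)) := un_poly ((UPoly.length c0).eval q)
  have v0 : CFn (SigmaP (k + 1)) (fun y : ((List Bool × List Item) × List Item) × List Bool =>
      DM ((un (q.eval y.1.1.1.length), y.1.2), pairBits (unpair y.2).1 (unpair y.2).2)) :=
    fCompPoly hDM (NPC.Poly.pair (NPC.Poly.pair c5 c2) (H622R2.poly_pairBits c3 c4))
  have v1 : CFn (SigmaP (k + 1)) (fun y : ((List Bool × List Item) × List Item) × List Bool =>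
      DP ((un (q.eval y.1.1.1.length), y.1.1.2), pairBits (unpair y.2).1 (unpair y.2).2)) :=
    fCompPoly hDP (NPC.Poly.pair (NPC.Poly.pair c5 c1) (H622R2.poly_pairBits c3 c4))
  have v2 : CFn (SigmaP (k + 1)) (fun y : ((List Bool × List Item) × List Item) × List Bool =>
      DP ((un (q.eval y.1.1.1.length), y.1.1.2),
        pairBits (unpair y.2).1 ((unpair y.2).2 ++ [false]))) :=
    fCompPoly hDP (NPC.Poly.pair (NPC.Poly.pair c5 c1) (H622R2.poly_pairBits c3
      (NPC.Poly.append c4 (NPC.Poly.const [false]))))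
  have v3 : CFn (SigmaP (k + 1)) (fun y : ((List Bool × List Item) × List Item) × List Bool =>
      DP ((un (q.eval y.1.1.1.length), y.1.1.2),
        pairBits (unpair y.2).1 ((unpair y.2).2 ++ [true]))) :=
    fCompPoly hDP (NPC.Poly.pair (NPC.Poly.pair c5 c1) (H622R2.poly_pairBits c3
      (NPC.Poly.append c4 (NPC.Poly.const [true]))))
  have hV : CFn (SigmaP (k + 1)) (fun y : ((List Bool × List Item) × List Item) × List Bool =>
      tst p (y, (DM ((un (q.eval y.1.1.1.length), y.1.2),
          pairBits (unpair y.2).1 (unpair y.2).2),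
        (DP ((un (q.eval y.1.1.1.length), y.1.1.2), pairBits (unpair y.2).1 (unpair y.2).2),
          (DP ((un (q.eval y.1.1.1.length), y.1.1.2),
            pairBits (unpair y.2).1 ((unpair y.2).2 ++ [false])),
          DP ((un (q.eval y.1.1.1.length), y.1.1.2),
            pairBits (unpair y.2).1 ((unpair y.2).2 ++ [true]))))))) :=
    fComp (fPoly (tst_poly p)) (fPair (fPoly NPC.Poly.id) (fPair v0 (fPair v1 (fPair v2 v3))))
  set V : ((List Bool × List Item) × List Item) × List Bool → Bool := fun y =>
      tst p (y, (DM ((un (q.eval y.1.1.1.length), y.1.2),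
          pairBits (unpair y.2).1 (unpair y.2).2),
        (DP ((un (q.eval y.1.1.1.length), y.1.1.2), pairBits (unpair y.2).1 (unpair y.2).2),
          (DP ((un (q.eval y.1.1.1.length), y.1.1.2),
            pairBits (unpair y.2).1 ((unpair y.2).2 ++ [false])),
          DP ((un (q.eval y.1.1.1.length), y.1.1.2),
            pairBits (unpair y.2).1 ((unpair y.2).2 ++ [true])))))) with hVdef
  have hVval : ∀ (z : List Bool × List Item) (a : List Item) (x v : List Bool),
      x.length ≤ z.1.length → v.length ≤ p.eval x.length + 1 →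
      (V ((z, a), pairBits x v) = true ↔
        DP ((un (q.eval z.1.length), z.2), pairBits x v) =
          (decide (v.length ≤ p.eval x.length) &&
            ((!DM ((un (q.eval z.1.length), a), pairBits x v)) ||
              (DP ((un (q.eval z.1.length), z.2), pairBits x (v ++ [false])) ||
                DP ((un (q.eval z.1.length), z.2), pairBits x (v ++ [true])))))) := by
    intro z a x v hx hv
    rw [hVdef]
    unfold tst
    simp only [unpair_pairBits]
    rw [decide_eq_true hx, decide_eq_true hv, Bool.and_self, cond_true, decide_eq_true_eq]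
  -- the test of the advice
  have hR : CPr (SigmaP (k + 2)) (fun z : List Bool × List Item => ∃ a : List Item,
      sz a ≤ (PM.comp q).eval (sz z) ∧ (RM (un (q.eval z.1.length), a) ∧
        ¬ ∃ s : List Bool, s.length ≤ q.eval (sz (z, a)) ∧ V ((z, a), s) = false)) := by
    refine sEx (k := k + 1) (P := fun y : (List Bool × List Item) × List Item =>
      RM (un (q.eval y.1.1.length), y.2) ∧
        ¬ ∃ s : List Bool, s.length ≤ q.eval (sz y) ∧ V (y, s) = false) (sAnd ?_ ?_) (PM.comp q)
    · exact sComp (P := RM) hRM (NPC.Poly.pair (un_poly ((UPoly.length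
        (NPC.Poly.fst (NPC.Poly.fst NPC.Poly.id))).eval q)) (NPC.Poly.snd NPC.Poly.id))
    · exact sNot (sExW (fIsFalse hV) q)
  refine ⟨fun y => DP ((un (q.eval y.1.1.length), y.1.2), pairBits y.2 []), ?_, _, hR, ?_,
    PP.comp q, fun n => ?_⟩
  · exact fCompPoly hDP (NPC.Poly.pair (NPC.Poly.pair (un_poly ((UPoly.length
      (NPC.Poly.fst (NPC.Poly.fst NPC.Poly.id))).eval q))
      (NPC.Poly.snd (NPC.Poly.fst NPC.Poly.id)))
      (H622R2.poly_pairBits (NPC.Poly.snd NPC.Poly.id) (NPC.Poly.const [])))
  · rintro z ⟨a, _, hR1, hR2⟩ x hx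
    have hm := hRM1 _ hR1
    have key : ∀ (t : ℕ) (v : List Bool), v.length + t = p.eval x.length + 1 →
        (DP ((un (q.eval z.1.length), z.2), pairBits x v) = true ↔ pairBits x v ∈ Pre p M) := by
      intro t
      have hloc : ∀ v : List Bool, v.length ≤ p.eval x.length + 1 →
          V ((z, a), pairBits x v) = true := by
        intro v hv
        by_contra hne
        refine hR2 ⟨pairBits x v, ?_, by simpa using hne⟩
        refine (hql _ x v hx hv).trans (eval_mono q ?_)
        have g1 := length_lt_sz z.1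
        have g2 : sz z = sz z.1 + sz z.2 + 1 := sz_pair z.1 z.2
        have g3 : sz (z, a) = sz z + sz a + 1 := sz_pair z a
        omega
      induction t with
      | zero =>
        intro v hv
        have h1 := (hVval z a x v hx (by omega)).1 (hloc v (by omega))
        have h2 : decide (v.length ≤ p.eval x.length) = false := by
          rw [decide_eq_false_iff_not]
          omega
        rw [h2, Bool.false_and] at h1
        rw [h1]
        have h3 : pairBits x v ∉ Pre p M := pre_long (by omega)
        simp [h3]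
      | succ t ih =>
        intro v hv
        have h1 := (hVval z a x v hx (by omega)).1 (hloc v (by omega))
        have h2 : decide (v.length ≤ p.eval x.length) = true := by
          rw [decide_eq_true_eq]
          omega
        rw [h2, Bool.true_and] at h1
        rw [h1, Bool.or_eq_true, Bool.or_eq_true, ih (v ++ [false]) (by
          rw [List.length_append, List.length_singleton]; omega), ih (v ++ [true]) (by
          rw [List.length_append, List.length_singleton]; omega),
          pre_step (x := x) (v := v) (by omega), Bool.not_eq_true', ← Bool.not_eq_true, hm (pairBits x v) (by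
            simp only [un_length]
            exact hql _ x v hx (by omega))]
    rw [hL x, ← pre_nil]
    exact key (p.eval x.length + 1) [] (by simp)
  · obtain ⟨adv, ha1, ha2⟩ := hPP (q.eval n)
    obtain ⟨a, hb1, hb2⟩ := hPM (q.eval n)
    have hm := hRM1 _ hb2
    refine ⟨adv, by rw [Polynomial.eval_comp]; exact ha1, a, ?_, ?_, ?_⟩
    · rw [Polynomial.eval_comp]
      refine hb1.trans (eval_mono PM (eval_mono q ?_))
      have g1 := length_lt_sz (un n)
      rw [un_length] at g1
      have g2 : sz (un n, adv) = sz (un n) + sz adv + 1 := sz_pair _ _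
      omega
    · simp only [un_length]
      exact hb2
    · rintro ⟨s, _, hs⟩
      simp only [un_length] at hm
      have hn0 : (un n).length = n := un_length n
      rw [hVdef] at hs
      unfold tst at hs
      simp only [hn0] at hs
      cases hc : (decide ((unpair s).1.length ≤ n) &&
        decide ((unpair s).2.length ≤ p.eval (unpair s).1.length + 1)) with
      | false => rw [hc, cond_false] at hs; exact absurd hs (by simp)
      | true =>
      rw [hc, cond_true] at hs
      rw [Bool.and_eq_true, decide_eq_true_eq, decide_eq_true_eq] at hc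
      obtain ⟨hx, hv⟩ := hc
      set x := (unpair s).1 with hxdef
      set v := (unpair s).2 with hvdef
      rw [decide_eq_false_iff_not] at hs
      apply hs
      rw [Bool.eq_iff_iff, Bool.and_eq_true, Bool.or_eq_true, Bool.or_eq_true, decide_eq_true_eq,
        ha2 (pairBits x v) (hql n x v hx hv)]
      by_cases hv2 : v.length ≤ p.eval x.length
      · rw [ha2 (pairBits x (v ++ [false])) (hql n x _ hx (by
            rw [List.length_append, List.length_singleton]; omega)),
          ha2 (pairBits x (v ++ [true])) (hql n x _ hx (by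
            rw [List.length_append, List.length_singleton]; omega)), Bool.not_eq_true',
          ← Bool.not_eq_true, hm (pairBits x v) (hql n x v hx hv), pre_step hv2]
        exact ⟨fun h => ⟨hv2, h⟩, fun h => h.2⟩
      · have h3 : pairBits x v ∉ Pre p M := pre_long (by omega)
        exact ⟨fun h => absurd h h3, fun h => absurd h.1 hv2⟩

theorem chk_all {k : ℕ} (hadv : ∀ A : Set (List Bool), SigmaP (k + 1) A → AdvAt (k + 1) A)
    (j : ℕ) : j ≤ k + 1 → ∀ L : Set (List Bool), SigmaP j L → Chk k L := by
  induction j with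
  | zero => exact fun _ L hL => chk_zero k hL
  | succ j ih =>
    rintro hj L ⟨M, p, hM, hL⟩
    exact chk_succ hL (hadv _ (sigma_mono hj (pre_sigma p hM))) (ih (by omega) M hM)

/-- **Advice in a level for the sets of the level makes the hierarchy collapse to the next
level.** -/
theorem sigma_step {k : ℕ} (hadv : ∀ A : Set (List Bool), SigmaP (k + 1) A → AdvAt (k + 1) A) :
    ∀ L : Set (List Bool), SigmaP (k + 3) L → SigmaP (k + 2) L := by
  rintro L ⟨M, p, ⟨N, p', hN, hMN⟩, hLM⟩
  obtain ⟨D, hD, R, hR, hR1, Pa, hPa⟩ := chk_all hadv (k + 1) le_rfl N hN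
  set r0 : Polynomial ℕ := 2 * Polynomial.X + 1 + p with hr0
  set r : Polynomial ℕ := 2 * r0 + 1 + p'.comp r0 with hr
  have er0 : ∀ n, r0.eval n = 2 * n + 1 + p.eval n := fun n => by simp [hr0]
  have er : ∀ n, r.eval n = 2 * r0.eval n + 1 + p'.eval (r0.eval n) := fun n => by
    simp [hr, Polynomial.eval_comp]
  -- `(x, (adv, w))` and `((x, (adv, w)), w')`
  have d1 : Poly (fun y : List Bool × (List Item × List Bool) => un (r.eval y.1.length)) :=
    un_poly ((UPoly.length (NPC.Poly.fst NPC.Poly.id)).eval r)
  have d2 : Poly (fun y : List Bool × (List Item × List Bool) => y.2.1) :=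
    NPC.Poly.fst (NPC.Poly.snd NPC.Poly.id)
  have d3 : Poly (fun y : List Bool × (List Item × List Bool) => y.2.2) :=
    NPC.Poly.snd (NPC.Poly.snd NPC.Poly.id)
  have d4 : Poly (fun y : List Bool × (List Item × List Bool) => y.1) :=
    NPC.Poly.fst NPC.Poly.id
  have f0 : Poly (fun y : (List Bool × (List Item × List Bool)) × List Bool => y.1) :=
    NPC.Poly.fst NPC.Poly.id
  have f1 : Poly (fun y : (List Bool × (List Item × List Bool)) × List Bool => y.2) :=
    NPC.Poly.snd NPC.Poly.id
  have f2 : Poly (fun y : (List Bool × (List Item × List Bool)) × List Bool =>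
      pairBits y.1.1 y.1.2.2) := H622R2.poly_pairBits (d4.comp f0) (d3.comp f0)
  have h1 : CPr (SigmaP (k + 2)) (fun y : List Bool × (List Item × List Bool) =>
      R (un (r.eval y.1.length), y.2.1)) := sComp (P := R) hR (NPC.Poly.pair d1 d2)
  have h2 : CPr (SigmaP (k + 2)) (fun y : List Bool × (List Item × List Bool) =>
      decide (y.2.2.length ≤ p.eval y.1.length) = true) :=
    sPoly (NPC.Poly.decide_le (NPC.Poly.length d3) ((UPoly.length d4).eval p).toPoly)
  have h3 : CPr (SigmaP (k + 1)) (fun y : (List Bool × (List Item × List Bool)) × List Bool =>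
      decide (y.2.length ≤ p'.eval (pairBits y.1.1 y.1.2.2).length) = true ∧
        D ((un (r.eval y.1.1.length), y.1.2.1), pairBits (pairBits y.1.1 y.1.2.2) y.2) =
          false) := by
    refine sAnd (sPoly (NPC.Poly.decide_le (NPC.Poly.length f1)
      ((UPoly.length f2).eval p').toPoly)) ?_
    exact sComp (P := fun z => D z = false) (fIsFalse hD) (NPC.Poly.pair (NPC.Poly.pair
      (d1.comp f0) (d2.comp f0)) (H622R2.poly_pairBits f2 f1))
  have h4 := sNot (sExW h3 (p'.comp (2 * Polynomial.X + 1 + Polynomial.X)))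
  have h5 := sEx (k := k + 1) (sAnd h1 (sAnd h2 h4))
    (Pa.comp r + Polynomial.C 4 * p + 2)
  refine sTo_raw (h5.congr (Q := fun x : List Bool => x ∈ L) fun x => ?_)
  have hlen : ∀ w : List Bool, w.length ≤ p.eval x.length → ∀ w' : List Bool,
      w'.length ≤ p'.eval (pairBits x w).length →
      (pairBits (pairBits x w) w').length ≤ r.eval x.length := by
    intro w hw w' hw'
    have g1 : (pairBits x w).length ≤ r0.eval x.length := by
      rw [pairBits_length, er0]
      omega
    have g2 := eval_mono p' g1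
    rw [pairBits_length, er]
    omega
  have hsub : ∀ (a : List Item) (w : List Bool), (pairBits x w).length ≤
      (2 * Polynomial.X + 1 + Polynomial.X : Polynomial ℕ).eval (sz (x, (a, w))) := by
    intro a w
    rw [pairBits_length]
    have g1 := length_lt_sz x
    have g2 := length_lt_sz w
    have g3 : sz (x, (a, w)) = sz x + sz (a, w) + 1 := sz_pair _ _
    have g4 : sz (a, w) = sz a + sz w + 1 := sz_pair _ _
    simp only [Polynomial.eval_add, Polynomial.eval_mul, Polynomial.eval_ofNat,
      Polynomial.eval_X, Polynomial.eval_one]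
    omega
  constructor
  · rintro ⟨⟨a, w⟩, _, g1, g2, g3⟩
    simp only at g1 g2 g3
    rw [decide_eq_true_eq] at g2
    have hr := hR1 _ g1
    simp only [un_length] at hr
    rw [hLM]
    refine ⟨w, g2, fun hm => ?_⟩
    rw [hMN] at hm
    obtain ⟨w', hw', hn⟩ := hm
    refine g3 ⟨w', ?_, by rw [decide_eq_true_eq]; exact hw', ?_⟩
    · rw [Polynomial.eval_comp]
      exact hw'.trans (eval_mono p' (hsub a w))
    · rw [← Bool.not_eq_true, hr _ (hlen w g2 w' hw')]
      exact hn
  · intro hx
    rw [hLM] at hx
    obtain ⟨w, hw, hm⟩ := hx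
    obtain ⟨a, ha, hRa⟩ := hPa (r.eval x.length)
    have hr := hR1 _ hRa
    simp only [un_length] at hr
    refine ⟨(a, w), ?_, hRa, by rw [decide_eq_true_eq]; exact hw, ?_⟩
    · have g1 := length_lt_sz x
      have g2 := eval_mono Pa (eval_mono r g1.le)
      have g3 := eval_mono p g1.le
      have g4 := sz_listBool_le w
      have g5 : sz (a, w) = sz a + sz w + 1 := sz_pair _ _
      rw [g5]
      simp only [Polynomial.eval_add, Polynomial.eval_mul, Polynomial.eval_comp,
        Polynomial.eval_C, Polynomial.eval_ofNat]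
      omega
    · rintro ⟨w', _, g1, g2⟩
      simp only at g1 g2
      rw [decide_eq_true_eq] at g1
      rw [← Bool.not_eq_true, hr _ (hlen w hw w' g1)] at g2
      exact hm ((hMN _).2 ⟨w', g1, g2⟩)

/-- The upward collapse. -/
theorem ph_of_step {c : ℕ} (h : ∀ L : Set (List Bool), SigmaP (c + 1) L → SigmaP c L) :
    ∀ L : Set (List Bool), InPH L → SigmaP c L := by
  have key : ∀ j, ∀ L : Set (List Bool), SigmaP j L → SigmaP c L := by
    intro j
    induction j with
    | zero => exact fun L hL => sigma_mono (Nat.zero_le c) hL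
    | succ j ih =>
      rintro L ⟨M, p, hM, hL⟩
      exact h L ⟨M, p, ih M hM, hL⟩
  rintro L ⟨j, hL⟩
  exact key j L hL

/-- `L` is polynomial-time many-one reducible to `A`. -/
def RedTo (L A : Set (List Bool)) : Prop :=
  ∃ r : List Bool → List Bool, PolyTime r ∧ ∀ x, x ∈ L ↔ r x ∈ A

/-- **The level law.** -/
theorem level_law {k : ℕ} {f : ℕ → ℝ} {ε : ℝ} (hε : 0 < ε)
    (hf : Filter.Tendsto (fun m : ℕ => f m / Real.sqrt (Real.log m)) Filter.atTop Filter.atTop)
    (h : ∀ L : Set (List Bool), SigmaP (k + 1) L →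
      ∃ A : Set (List Bool), RedTo L A ∧ PredIn (SigmaP (k + 1)) f ε A) :
    ∀ L : Set (List Bool), InPH L → SigmaP (k + 2) L := by
  refine ph_of_step (sigma_step fun L hL => ?_)
  obtain ⟨A, ⟨r, hr, hrA⟩, hA⟩ := h L hL
  exact advAt_of_reduces hf hε hA (PIso.poly_iff.2 hr) hrA

theorem fully_of_collapse {c : ℕ} {f : ℕ → ℝ} (hf1 : ∀ m : ℕ, 1 ≤ m → f m ≤ Real.sqrt m)
    (h : ∀ L : Set (List Bool), SigmaP (c + 1) L → SigmaP c L) (A : Set (List Bool))
    (hA : InPH A) : FullyPredIn (SigmaP c) f A := by
  obtain ⟨g, hg, h1⟩ := fullyPredIn_of_in cl_ph hf1 hA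
  exact ⟨g, ⟨hg.1, ph_of_step h _ hg.2⟩, h1⟩

theorem predIn_of_fully {c : ℕ} {f : ℕ → ℝ} {A : Set (List Bool)}
    (h : FullyPredIn (SigmaP c) f A) (ε : ℝ) : PredIn (SigmaP c) f ε A := by
  obtain ⟨g, hg, h⟩ := h
  refine ⟨fun z => g (unpair z).1, 0, fOfCFn (fCompPoly (fToCFn hg)
    (NPC.Poly.fst poly_unpair)), fun qs hqs _ => ⟨[], by simp, ?_⟩⟩
  simp only [unpair_pairBits]
  exact (h qs hqs).1

theorem redTo_refl (L : Set (List Bool)) : RedTo L L :=
  ⟨fun x => x, PIso.poly_iff.1 NPC.Poly.id, fun _ => Iff.rfl⟩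

end Pool.Agent.W901.PX
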